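import Pool.Agent.R941.WD.Leib

/-!
# Derivations of the cohomology algebra
-/

namespace Pool.Agent.R941.WD

universe u

open Module Module.End Pool.Agent.Y143

variable {A : Type u} [Ring A] [Algebra ℂ A] {n : ℕ}

namespace CohomologyAlgebra

variable (X : CohomologyAlgebra A n)

/-- Induction on homogeneous elements. -/
lemma hom_induction {P : A → Prop} (h : ∀ k, ∀ x ∈ X.gr k, P x) (h0 : P 0)
    (ha : ∀ x y, P x → P y → P (x + y)) (x : A) : P x := by
  have h1 : x ∈ ⨆ k, X.gr k := by
    rw [X.isInternal.submodule_iSup_eq_top]; trivial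
  exact Submodule.iSup_induction _ (motive := P) h1 h h0 ha

/-- The projection to `gr k`. -/
noncomputable def proj (k : ℕ) : Module.End ℂ A :=
  Classical.choose (exists_scalar_op X.gr X.isInternal (fun j => if j = k then 1 else 0))

lemma proj_spec (k j : ℕ) (x : A) (hx : x ∈ X.gr j) :
    X.proj k x = (if j = k then (1 : ℂ) else 0) • x :=
  Classical.choose_spec (exists_scalar_op X.gr X.isInternal (fun j => if j = k then 1 else 0)) j x hx

lemma proj_self {k : ℕ} {x : A} (hx : x ∈ X.gr k) : X.proj k x = x := by
  rw [X.proj_spec k k x hx, if_pos rfl, one_smul]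

lemma proj_ne {j k : ℕ} (h : j ≠ k) {x : A} (hx : x ∈ X.gr j) : X.proj k x = 0 := by
  rw [X.proj_spec k j x hx, if_neg h, zero_smul]

lemma proj_mem (k : ℕ) (x : A) : X.proj k x ∈ X.gr k := by
  refine X.hom_induction (P := fun x => X.proj k x ∈ X.gr k) ?_ ?_ ?_ x
  · intro j x hx
    by_cases h : j = k
    · subst h; rwa [X.proj_self hx]
    · rw [X.proj_ne h hx]; exact zero_mem _
  · rw [map_zero]; exact zero_mem _
  · intro x y hx hy
    rw [map_add]; exact add_mem hx hy

lemma eq_sum (x : A) : x = ∑ k ∈ Finset.range (2 * n + 1), X.proj k x := by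
  refine X.hom_induction (P := fun x => x = ∑ k ∈ Finset.range (2 * n + 1), X.proj k x) ?_ ?_ ?_ x
  · intro j x hx
    by_cases hj : j ≤ 2 * n
    · rw [Finset.sum_eq_single j]
      · exact (X.proj_self hx).symm
      · intro b _ hb; exact X.proj_ne (Ne.symm hb) hx
      · intro h; exact absurd (Finset.mem_range.2 (by omega)) h
    · have h0 : x = 0 := by
        rw [X.gr_top j (by omega)] at hx
        simpa using hx
      rw [h0]; simp
  · simp
  · intro x y hx hy
    simp only [map_add, Finset.sum_add_distrib]
    rw [← hx, ← hy]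

lemma ext_proj {x : A} (h : ∀ k, X.proj k x = 0) : x = 0 := by
  rw [X.eq_sum x]
  exact Finset.sum_eq_zero fun k _ => h k

/-- Derivations of degree zero which kill `eta` and satisfy the Leibniz rule for the operations in
`S`. -/
structure Good (S : ∀ a : ℕ, Set (MultilinearMap ℂ (fun _ : Fin a => A) A))
    (D : Module.End ℂ A) : Prop where
  der : IsDerivationOp D
  deg : ∀ k x, x ∈ X.gr k → D x ∈ X.gr k
  eta : D X.eta = 0
  kill : ∀ a, ∀ Z ∈ S a, Leibniz D Z

/-- The Lie algebra of the derivations of degree zero which kill `eta` and satisfy the Leibniz rule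
for the operations in `S`. -/
def ders (S : ∀ a : ℕ, Set (MultilinearMap ℂ (fun _ : Fin a => A) A)) : Submodule ℂ (Module.End ℂ A) where
  carrier := {D | X.Good S D}
  add_mem' {D D'} h h' :=
    { der := fun x y => by
        simp only [LinearMap.add_apply, h.der x y, h'.der x y, add_mul, mul_add]; abel
      deg := fun k x hx => add_mem (h.deg k x hx) (h'.deg k x hx)
      eta := by rw [LinearMap.add_apply, h.eta, h'.eta, add_zero]
      kill := fun a Z hZ => (h.kill a Z hZ).add (h'.kill a Z hZ) }
  zero_mem' :=
    { der := fun x y => by simp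
      deg := fun k x hx => zero_mem _
      eta := rfl
      kill := fun a Z hZ => Leibniz.zero }
  smul_mem' c D h :=
    { der := fun x y => by
        simp only [LinearMap.smul_apply, h.der x y, smul_add, smul_mul_assoc, mul_smul_comm]
      deg := fun k x hx => Submodule.smul_mem _ _ (h.deg k x hx)
      eta := by rw [LinearMap.smul_apply, h.eta, smul_zero]
      kill := fun a Z hZ => (h.kill a Z hZ).smul c }

lemma mem_ders {S : ∀ a : ℕ, Set (MultilinearMap ℂ (fun _ : Fin a => A) A)} {D : Module.End ℂ A} : D ∈ X.ders S ↔ X.Good S D := Iff.rfl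

lemma adj_mem {S : ∀ a : ℕ, Set (MultilinearMap ℂ (fun _ : Fin a => A) A)}
    {D D' : Module.End ℂ A} (h : D ∈ X.ders S) (h' : D' ∈ X.ders S) :
    adj D D' ∈ X.ders S where
  der := fun x y => by
    simp only [adj_apply, LinearMap.sub_apply, Module.End.mul_apply, h.der x y, h'.der x y,
      map_add, sub_mul, mul_sub]
    rw [h.der (D' x) y, h.der x (D' y), h'.der (D x) y, h'.der x (D y)]
    abel
  deg := fun k x hx => sub_mem (h.deg k _ (h'.deg k _ hx)) (h'.deg k _ (h.deg k _ hx))
  eta := by
    simp only [adj_apply, LinearMap.sub_apply, Module.End.mul_apply, h.eta, h'.eta, map_zero,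
      sub_zero]
  kill := fun a Z hZ => (h.kill a Z hZ).adj (h'.kill a Z hZ)

variable {X} {S : ∀ a : ℕ, Set (MultilinearMap ℂ (fun _ : Fin a => A) A)} {D : Module.End ℂ A}

lemma Good.one (h : X.Good S D) : D 1 = 0 := by
  have h1 := h.der 1 1
  simp only [mul_one, one_mul] at h1
  have h2 : D 1 + D 1 = D 1 + 0 := by rw [add_zero]; exact h1.symm
  exact add_left_cancel h2

lemma Good.eta_pow (h : X.Good S D) (j : ℕ) : D (X.eta ^ j) = 0 := by
  induction j with
  | zero => rw [pow_zero, h.one]
  | succ j ih => rw [pow_succ, h.der, ih, h.eta, zero_mul, mul_zero, add_zero]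

lemma Good.eta_mul (h : X.Good S D) (j : ℕ) (x : A) : D (X.eta ^ j * x) = X.eta ^ j * D x := by
  rw [h.der, h.eta_pow, zero_mul, zero_add]

lemma Good.proj (h : X.Good S D) (k : ℕ) (x : A) : D (X.proj k x) = X.proj k (D x) := by
  refine X.hom_induction (P := fun x => D (X.proj k x) = X.proj k (D x)) ?_ ?_ ?_ x
  · intro j x hx
    by_cases hj : j = k
    · subst hj; rw [X.proj_self hx, X.proj_self (h.deg j x hx)]
    · rw [X.proj_ne hj hx, X.proj_ne hj (h.deg j x hx), map_zero]
  · simp
  · intro x y hx hy
    simp only [map_add, hx, hy]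

lemma eta_top (X : CohomologyAlgebra A n) {x : A} (hx : x ∈ X.gr (2 * n)) :
    ∃ c : ℂ, x = c • X.eta ^ n := by
  obtain ⟨y, hy, hy'⟩ := X.lef_surj 0 (Nat.zero_le n) x (by simpa using hx)
  obtain ⟨c, hc⟩ := X.connected y hy
  refine ⟨c, ?_⟩
  rw [← hy', hc]
  simp

lemma Good.integral (h : X.Good S D) (x : A) : X.integral (D x) = 0 := by
  refine X.hom_induction (P := fun x => X.integral (D x) = 0) ?_ ?_ ?_ x
  · intro k x hx
    by_cases hk : k = 2 * n
    · subst hk
      obtain ⟨c, rfl⟩ := X.eta_top hx
      rw [map_smul, h.eta_pow, smul_zero, map_zero]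
    · exact X.integral_gr k _ (h.deg k x hx) hk
  · simp
  · intro x y hx hy
    rw [map_add, map_add, hx, hy, add_zero]

lemma integral_weil (X : CohomologyAlgebra A n) (x : A) : X.integral (X.weil x) = X.integral x := by
  refine X.hom_induction (P := fun x => X.integral (X.weil x) = X.integral x) ?_ ?_ ?_ x
  · intro k x hx
    by_cases hk : k = 2 * n
    · subst hk
      obtain ⟨c, rfl⟩ := X.eta_top hx
      rw [map_smul, map_pow, X.weil_eta]
    · rw [X.integral_gr k _ (X.weil_mem k x hx) hk, X.integral_gr k _ hx hk]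
  · simp
  · intro x y hx hy
    rw [map_add, map_add, map_add, hx, hy]

/-! ### Primitive classes -/

/-- The space of primitive classes. -/
def prim (X : CohomologyAlgebra A n) : Submodule ℂ A where
  carrier := {x | ∀ k, (k ≤ n → X.eta ^ (n - k + 1) * X.proj k x = 0) ∧ (n < k → X.proj k x = 0)}
  add_mem' {x y} hx hy k := by
    refine ⟨fun h => ?_, fun h => ?_⟩
    · rw [map_add, mul_add, (hx k).1 h, (hy k).1 h, add_zero]
    · rw [map_add, (hx k).2 h, (hy k).2 h, add_zero]
  zero_mem' k := by simp
  smul_mem' c x hx k := by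
    refine ⟨fun h => ?_, fun h => ?_⟩
    · rw [map_smul, mul_smul_comm, (hx k).1 h, smul_zero]
    · rw [map_smul, (hx k).2 h, smul_zero]

lemma Good.prim_mem (h : X.Good S D) : ∀ x ∈ X.prim, D x ∈ X.prim := by
  intro x hx k
  refine ⟨fun hk => ?_, fun hk => ?_⟩
  · rw [← h.proj, ← h.eta_mul, (hx k).1 hk, map_zero]
  · rw [← h.proj, (hx k).2 hk, map_zero]

lemma mem_prim_of (X : CohomologyAlgebra A n) {k : ℕ} (hk : k ≤ n) {x : A} (hx : x ∈ X.gr k)
    (h0 : X.eta ^ (n - k + 1) * x = 0) : x ∈ X.prim := by
  intro j
  by_cases hj : k = j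
  · subst hj
    exact ⟨fun _ => by rwa [X.proj_self hx], fun h => absurd h (by omega)⟩
  · rw [X.proj_ne hj hx]
    exact ⟨fun _ => mul_zero _, fun _ => rfl⟩

/-- A derivation which kills the primitive classes is zero. -/
lemma Good.eq_zero (h : X.Good S D) (h0 : ∀ x ∈ X.prim, D x = 0) : D = 0 := by
  have hlow : ∀ k : ℕ, k ≤ n → ∀ x ∈ X.gr k, D x = 0 := by
    intro k
    induction k using Nat.strong_induction_on with
    | _ k ih =>
      intro hk x hx
      by_cases hk2 : k < 2
      · apply h0
        apply X.mem_prim_of hk hx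
        have h1 : X.eta ^ (n - k + 1) * x ∈ X.gr (2 * (n - k + 1) + k) := by
          apply X.mul_mem _ _ _ _ _ hx
          have h2 : ∀ j : ℕ, X.eta ^ j ∈ X.gr (2 * j) := by
            intro j
            induction j with
            | zero => simpa using X.one_mem
            | succ j ihj =>
              rw [pow_succ]
              have := X.mul_mem _ _ _ _ ihj X.eta_mem
              rwa [show 2 * j + 2 = 2 * (j + 1) by ring] at this
          exact h2 _
        rw [X.gr_top _ (by omega)] at h1
        simpa using h1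
      · have h1 : X.eta ^ (n - k + 1) * x ∈ X.gr (2 * n - (k - 2)) := by
          have h3 : X.eta ^ (n - k + 1) * x ∈ X.gr (2 * (n - k + 1) + k) := by
            apply X.mul_mem _ _ _ _ _ hx
            have h2 : ∀ j : ℕ, X.eta ^ j ∈ X.gr (2 * j) := by
              intro j
              induction j with
              | zero => simpa using X.one_mem
              | succ j ihj =>
                rw [pow_succ]
                have := X.mul_mem _ _ _ _ ihj X.eta_mem
                rwa [show 2 * j + 2 = 2 * (j + 1) by ring] at this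
            exact h2 _
          rwa [show 2 * (n - k + 1) + k = 2 * n - (k - 2) by omega] at h3
        obtain ⟨y, hy, hy'⟩ := X.lef_surj (k - 2) (by omega) _ h1
        have h4 : X.eta * y ∈ X.gr k := by
          have := X.mul_mem _ _ _ _ X.eta_mem hy
          rwa [show 2 + (k - 2) = k by omega] at this
        have h5 : x - X.eta * y ∈ X.prim := by
          apply X.mem_prim_of hk (sub_mem hx h4)
          rw [mul_sub, ← mul_assoc, ← pow_succ, show n - k + 1 + 1 = n - (k - 2) by omega, hy',
            sub_self]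
        have h6 := h0 _ h5
        rw [map_sub] at h6
        have h7 := h.eta_mul 1 y
        rw [pow_one] at h7
        rw [sub_eq_zero.1 h6, h7, ih (k - 2) (by omega) (by omega) y hy, mul_zero]
  ext x
  refine X.hom_induction (P := fun x => D x = (0 : Module.End ℂ A) x) ?_ ?_ ?_ x
  · intro k x hx
    rw [LinearMap.zero_apply]
    by_cases hk : k ≤ n
    · exact hlow k hk x hx
    · by_cases hk2 : k ≤ 2 * n
      · obtain ⟨y, hy, hy'⟩ := X.lef_surj (2 * n - k) (by omega) x
          (by rwa [show 2 * n - (2 * n - k) = k by omega])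
        rw [← hy', h.eta_mul, hlow _ (by omega) y hy, mul_zero]
      · rw [X.gr_top k (by omega)] at hx
        have : x = 0 := by simpa using hx
        rw [this, map_zero]
  · simp
  · intro x y hx hy
    rw [map_add, hx, hy]; simp

end CohomologyAlgebra

end Pool.Agent.R941.WD
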