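import Pool.Agent.R941.WD.Weight

/-!
# A criterion for mw purity
-/

namespace Pool.Agent.R941.WD

open Module Module.End Pool.Agent.Y143 Pool.Agent.H914

section

variable {V : Type*} [AddCommGroup V] [Module ℂ V] [FiniteDimensional ℂ V]
  {q : ℕ} {m : ℤ} {Φ N H h E : Module.End ℂ V}

lemma weight_of_mem (hq : 1 < q)
    (hw : ∀ (α : ℂ) x, x ≠ 0 → Φ x = α • x → ∃ w : ℤ, IsWeilNumber q w α)
    {α : ℂ} {x : V} (hx : x ∈ Φ.maxGenEigenspace α) (hx0 : x ≠ 0) :
    IsWeilNumber q (wt q α) α := by
  obtain ⟨y, hy⟩ := (hasEigenvalue_of_mem hx hx0).exists_hasEigenvector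
  obtain ⟨w, h⟩ := hw α y hy.2 (mem_eigenspace_iff.1 hy.1)
  rw [wt_eq hq h]
  exact h

/-- If the weight operator `H` (weight minus `m`) commutes with the semisimple element `h` of an
`sl(2)`-triple containing `N`, then `V` is mw pure of weight `m` if and only if `H = h`. -/
theorem pure_iff (hq : 1 < q)
    (hw : ∀ (α : ℂ) x, x ≠ 0 → Φ x = α • x → ∃ w : ℤ, IsWeilNumber q w α)
    (hH : ∀ α, ∀ x ∈ Φ.maxGenEigenspace α, H x = ((wt q α : ℂ) - m) • x)
    (t : Sl2 h E N) (hHh : ∀ x, H (h x) = h (H x)) :
    IsMWPure q m Φ N ↔ H = h := by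
  have hHΦ : ∀ x, H (Φ x) = Φ (H x) := gen_op_comm (c := fun α => (wt q α : ℂ) - m) hH rfl
  have hss : H.IsSemisimple := gen_op_semisimple (c := fun α => (wt q α : ℂ) - m) hH
  have heig : ∀ {α : ℂ} {x : V}, Φ x = α • x → x ∈ Φ.maxGenEigenspace α := by
    intro α x hx
    exact (Module.End.genEigenspace Φ α).monotone le_top (mem_eigenspace_iff.2 hx)
  constructor
  · rintro ⟨M, hM, hMΦ, hMw⟩
    have hMfil : M = fil h := monodromyFiltration_unique hM (isMonodromyFiltration_fil t)
    subst hMfil
    -- on a joint eigenvector the eigenvalues agree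
    have key : ∀ (j : ℤ) (μ : ℂ) (y : V), h y = (j : ℂ) • y → H y = μ • y → y ≠ 0 → μ = j := by
      intro j μ y hy1 hy2 hy0
      set Z : Submodule ℂ V := H.eigenspace μ ⊓ fil h j with hZ
      set B : Submodule ℂ V := H.eigenspace μ ⊓ fil h (j - 1) with hB
      have hstab : ∀ a, ∀ x ∈ H.eigenspace μ ⊓ fil h a, Φ x ∈ H.eigenspace μ ⊓ fil h a := by
        intro a x hx
        refine ⟨mem_eigenspace_iff.2 ?_, hMΦ a x hx.2⟩
        rw [hHΦ, mem_eigenspace_iff.1 hx.1, map_smul]
      have hyZ : y ∈ Z := ⟨mem_eigenspace_iff.2 hy2, eig_le_fil h le_rfl (mem_eigenspace_iff.2 hy1)⟩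
      have hyB : y ∉ B := fun hyB => hy0 ((Submodule.disjoint_def.1
        (disjoint_fil h (show j - 1 < j by omega))) y (mem_eigenspace_iff.2 hy1) hyB.2)
      have h1 := Submodule.inf_iSup_genEigenspace (p := Z) (f := Φ) (hstab j) ⊤
      have h2 : ⨆ α : ℂ, Φ.genEigenspace α ⊤ = ⊤ := Module.End.iSup_maxGenEigenspace_eq_top Φ
      rw [h2, inf_top_eq] at h1
      obtain ⟨α, hα⟩ : ∃ α : ℂ, ¬ (Z ⊓ Φ.genEigenspace α ⊤ ≤ B) := by
        by_contra hcon
        push Not at hcon
        apply hyB
        have : Z ≤ B := by rw [h1]; exact iSup_le hcon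
        exact this hyZ
      obtain ⟨z, hz, hzB⟩ := SetLike.not_le_iff_exists.1 hα
      have hz2 : z ∈ Φ.maxGenEigenspace α := hz.2
      obtain ⟨k, hk⟩ := (Module.End.mem_maxGenEigenspace Φ α z).1 hz2
      -- the last power not in `B`
      have hex : ∃ k : ℕ, ((Φ - α • (1 : Module.End ℂ V)) ^ k) z ∈ B := ⟨k, by rw [hk]; exact zero_mem _⟩
      classical
      set k0 := Nat.find hex with hk0
      have hk1 : k0 ≠ 0 := by
        intro h0
        have := Nat.find_spec hex
        rw [← hk0, h0] at this
        exact hzB (by simpa using this)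
      obtain ⟨l, hl⟩ := Nat.exists_eq_succ_of_ne_zero hk1
      set x := ((Φ - α • (1 : Module.End ℂ V)) ^ l) z with hxdef
      have hxB : x ∉ B := Nat.find_min hex (by rw [← hk0]; omega)
      have hmem : ∀ (i : ℕ) (p : Submodule ℂ V), (∀ x ∈ p, Φ x ∈ p) → z ∈ p →
          ((Φ - α • (1 : Module.End ℂ V)) ^ i) z ∈ p := by
        intro i p hp hzp
        induction i with
        | zero => simpa using hzp
        | succ i ih =>
          rw [pow_succ', Module.End.mul_apply]
          exact sub_mem (hp _ ih) (p.smul_mem _ ih)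
      have hxZ : x ∈ Z := hmem l Z (hstab j) hz.1
      have hxα : x ∈ Φ.maxGenEigenspace α := hmem l _
        (fun x hx => Module.End.mapsTo_maxGenEigenspace_of_comm (Commute.refl Φ) α hx) hz2
      have hxs : Φ x - α • x ∈ B := by
        have := Nat.find_spec hex
        rw [← hk0, hl, Nat.succ_eq_add_one, pow_succ', Module.End.mul_apply] at this
        exact this
      have hx0 : x ≠ 0 := fun h0 => hxB (by rw [h0]; exact zero_mem _)
      have hxn : x ∉ fil h (j - 1) := fun h3 => hxB ⟨hxZ.1, h3⟩
      have h3 := hMw j α x hxZ.2 hxn hxs.2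
      have h4 := weight_of_mem hq hw hxα hx0
      have h5 := weil_unique hq h3 h4
      have h6 := hH α x hxα
      rw [mem_eigenspace_iff.1 hxZ.1, ← h5] at h6
      have h7 : (μ - j) • x = 0 := by
        rw [sub_smul, h6]
        push_cast
        module
      rcases smul_eq_zero.1 h7 with h8 | h8
      · exact sub_eq_zero.1 h8
      · exact absurd h8 hx0
    -- the joint eigenvectors span
    have hspan : ∀ x : V, H x = h x := by
      intro x
      have hx : x ∈ ⨆ j : ℤ, h.eigenspace (j : ℂ) := by rw [iSup_eig t]; trivial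
      refine Submodule.iSup_induction _ (motive := fun x => H x = h x) hx ?_ ?_ ?_
      · intro j y hy
        have h1 := Submodule.inf_iSup_genEigenspace (p := h.eigenspace (j : ℂ)) (f := H) (by
          intro z hz
          rw [mem_eigenspace_iff] at hz ⊢
          rw [← hHh, hz, map_smul]) 1
        have h2 : ⨆ μ : ℂ, H.genEigenspace μ 1 = ⊤ := hss.iSup_eigenspace_eq_top
        rw [h2, inf_top_eq] at h1
        rw [h1] at hy
        refine Submodule.iSup_induction _ (motive := fun x => H x = h x) hy ?_ ?_ ?_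
        · intro μ z hz
          by_cases hz0 : z = 0
          · rw [hz0, map_zero, map_zero]
          have hz1 : h z = (j : ℂ) • z := mem_eigenspace_iff.1 hz.1
          have hz2 : H z = μ • z := mem_eigenspace_iff.1 hz.2
          rw [hz1, hz2, key j μ z hz1 hz2 hz0]
        · simp
        · intro a b ha hb; rw [map_add, map_add, ha, hb]
      · simp
      · intro a b ha hb; rw [map_add, map_add, ha, hb]
    exact LinearMap.ext hspan
  · rintro rfl
    refine ⟨fil H, isMonodromyFiltration_fil t, ?_, ?_⟩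
    · intro a x hx
      have h1 : fil H a ≤ (fil H a).comap Φ := by
        refine iSup_le fun j => fun y hy => ?_
        refine eig_le_fil H j.2 (mem_eigenspace_iff.2 ?_)
        rw [hHΦ, mem_eigenspace_iff.1 hy, map_smul]
      exact h1 hx
    · intro a α x hx hx' hxα
      rw [fil_succ] at hx
      obtain ⟨y, hy, z, hz, rfl⟩ := Submodule.mem_sup.1 hx
      have hstab : ∀ b, ∀ x ∈ fil H b, Φ x ∈ fil H b := by
        intro b x hx
        have h1 : fil H b ≤ (fil H b).comap Φ := by
          refine iSup_le fun j => fun y hy => ?_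
          refine eig_le_fil H j.2 (mem_eigenspace_iff.2 ?_)
          rw [hHΦ, mem_eigenspace_iff.1 hy, map_smul]
        exact h1 hx
      have hy0 : y ≠ 0 := by
        rintro rfl
        rw [zero_add] at hx'
        exact hx' hz
      have h1 : Φ y - α • y ∈ fil H (a - 1) := by
        have h2 : Φ z - α • z ∈ fil H (a - 1) := sub_mem (hstab _ z hz) (Submodule.smul_mem _ _ hz)
        have h3 := sub_mem hxα h2
        have h4 : Φ (y + z) - α • (y + z) - (Φ z - α • z) = Φ y - α • y := by
          rw [map_add, smul_add]; abel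
        rwa [h4] at h3
      have h2 : Φ y - α • y ∈ H.eigenspace (a : ℂ) := by
        refine sub_mem (mem_eigenspace_iff.2 ?_) (Submodule.smul_mem _ _ hy)
        rw [hHΦ, mem_eigenspace_iff.1 hy, map_smul]
      have h3 : Φ y - α • y = 0 :=
        (Submodule.disjoint_def.1 (disjoint_fil H (show a - 1 < a by omega))) _ h2 h1
      have h4 : Φ y = α • y := sub_eq_zero.1 h3
      have h5 := weight_of_mem hq hw (heig h4) hy0
      have h6 := hH α y (heig h4)
      rw [mem_eigenspace_iff.1 hy] at h6
      have h7 : ((a : ℂ) - (wt q α - m)) • y = 0 := by rw [sub_smul, h6]; abel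
      rcases smul_eq_zero.1 h7 with h8 | h8
      · have h9 : (a : ℂ) + m = wt q α := by linear_combination h8
        have h10 : a + m = wt q α := by exact_mod_cast h9
        rw [h10]
        exact h5
      · exact absurd h8 hy0

end

end Pool.Agent.R941.WD
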