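import Pool.Agent.Y143.Defs

/-!
# The cohomology algebra of a smooth projective variety over a local field of characteristic zero

`X` is a connected smooth projective variety of dimension `n` over a finite extension `K` of `ℚ_p`
with residue field of `q` elements. We fix a prime `ℓ ≠ p`, an embedding of `K` in `ℂ` and an
isomorphism of an algebraic closure `Ω` of `ℚ_ℓ` with `ℂ`. So the graded algebra
`A = H^*(X_{\bar K}, Ω)` is identified with the graded algebra `H^*(X(ℂ), ℂ)`. It carries, on the
one hand, the structures of Hodge theory, on the other hand the action of a geometric Frobenius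
element and the logarithm of the monodromy.
-/

namespace Pool.Agent.R941.WD

universe u

open Module Pool.Agent.Y143

/-- `D` is a derivation of the algebra `A`. -/
def IsDerivationOp {A : Type u} [Ring A] [Algebra ℂ A] (D : Module.End ℂ A) : Prop :=
  ∀ x y, D (x * y) = D x * y + x * D y

/-- The operator `D` satisfies the Leibniz rule for the operation `Z` in `a` variables. -/
def Leibniz {A : Type u} [Ring A] [Algebra ℂ A] {a : ℕ} (D : Module.End ℂ A)
    (Z : MultilinearMap ℂ (fun _ : Fin a => A) A) : Prop :=
  ∀ x : Fin a → A, D (Z x) = ∑ i, Z (Function.update x i (D (x i)))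

/-- The cohomology algebra `A = ⨁ gr k`, `gr k = H^k(X(ℂ), ℂ)`, of a connected smooth projective
variety `X` of dimension `n` over `ℂ`:

* `A` is finite-dimensional, graded-commutative, `gr 0 = ℂ`, `gr k = 0` for `k > 2 n`;
* `eta` is the class of a hyperplane section, which satisfies the hard Lefschetz theorem;
* `integral` is the integration map (the trace map of Poincare duality), which vanishes in degrees
  different from `2 n`;
* `conj` is the complex conjugation, and `weil` is the Weil operator of the Hodge structure, which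
  acts on `H^(p,q)` by `i ^ (p - q)`;
* the Hodge-Riemann bilinear relations hold: on the primitive part of `gr k` the hermitian form
  `(-1) ^ (k (k - 1) / 2) ∫ eta ^ (n - k) (C x) (conj y)` is positive definite. -/
structure CohomologyAlgebra (A : Type u) [Ring A] [Algebra ℂ A] (n : ℕ) where
  gr : ℕ → Submodule ℂ A
  eta : A
  integral : A →ₗ[ℂ] ℂ
  conj : A ≃+* A
  weil : A ≃ₐ[ℂ] A
  finite : Module.Finite ℂ A
  isInternal : DirectSum.IsInternal gr
  one_mem : (1 : A) ∈ gr 0
  connected : ∀ x ∈ gr 0, ∃ c : ℂ, x = c • (1 : A)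
  mul_mem : ∀ i j x y, x ∈ gr i → y ∈ gr j → x * y ∈ gr (i + j)
  graded_comm : ∀ i j x y, x ∈ gr i → y ∈ gr j → y * x = (-1 : ℂ) ^ (i * j) • (x * y)
  gr_top : ∀ k, 2 * n < k → gr k = ⊥
  eta_mem : eta ∈ gr 2
  lef_inj : ∀ i ≤ n, ∀ x ∈ gr i, eta ^ (n - i) * x = 0 → x = 0
  lef_surj : ∀ i ≤ n, ∀ y ∈ gr (2 * n - i), ∃ x ∈ gr i, eta ^ (n - i) * x = y
  integral_gr : ∀ k x, x ∈ gr k → k ≠ 2 * n → integral x = 0
  integral_conj : ∀ x, integral (conj x) = (starRingEnd ℂ) (integral x)
  conj_smul : ∀ (c : ℂ) x, conj (c • x) = (starRingEnd ℂ c) • conj x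
  conj_conj : ∀ x, conj (conj x) = x
  conj_mem : ∀ k x, x ∈ gr k → conj x ∈ gr k
  conj_eta : conj eta = eta
  weil_mem : ∀ k x, x ∈ gr k → weil x ∈ gr k
  weil_weil : ∀ k x, x ∈ gr k → weil (weil x) = (-1 : ℂ) ^ k • x
  weil_conj : ∀ x, weil (conj x) = conj (weil x)
  weil_eta : weil eta = eta
  hodge_riemann : ∀ k ≤ n, ∀ x ∈ gr k, eta ^ (n - k + 1) * x = 0 → x ≠ 0 →
    ∃ r : ℝ, 0 < r ∧
      (-1 : ℂ) ^ (k * (k - 1) / 2) * integral (eta ^ (n - k) * (weil x * conj x)) = r

/-- The action on the cohomology algebra of `X` of a geometric Frobenius element `frob` and of the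
logarithm `N` of the monodromy (Grothendieck's monodromy theorem). Both are compatible with the
product and with the class `eta` (the hyperplane class is algebraic), `N` is a morphism from `V` to
`V(-1)`, and the eigenvalues of `frob` are `q`-Weil numbers of some weights (a theorem of Deligne,
Rapoport-Zink and de Jong). -/
structure Monodromy {A : Type u} [Ring A] [Algebra ℂ A] {n : ℕ} (X : CohomologyAlgebra A n)
    (q : ℕ) where
  frob : A ≃ₐ[ℂ] A
  N : Module.End ℂ A
  frob_mem : ∀ k x, x ∈ X.gr k → frob x ∈ X.gr k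
  frob_eta : frob X.eta = (q : ℂ) • X.eta
  weights : ∀ (α : ℂ) x, x ≠ 0 → frob x = α • x → ∃ w : ℤ, IsWeilNumber q w α
  N_mem : ∀ k x, x ∈ X.gr k → N x ∈ X.gr k
  N_mul : IsDerivationOp N
  N_eta : N X.eta = 0
  N_frob : ∀ x, N (frob x) = (q : ℂ) • frob (N x)

namespace Monodromy

variable {A : Type u} [Ring A] [Algebra ℂ A] {n : ℕ} {X : CohomologyAlgebra A n} {q : ℕ}
  (M : Monodromy X q)

/-- The Frobenius element as a linear map. -/
def Phi : Module.End ℂ A := (M.frob : A →ₐ[ℂ] A).toLinearMap

/-- The action of the Frobenius element on `H^k`. -/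
def frobOn (k : ℕ) : Module.End ℂ (X.gr k) :=
  M.frob.toLinearMap.restrict fun x hx => M.frob_mem k x hx

/-- The logarithm of the monodromy on `H^k`. -/
def NOn (k : ℕ) : Module.End ℂ (X.gr k) := M.N.restrict fun x hx => M.N_mem k x hx

/-- `H^k` is mw pure of weight `k`: the eigenvalues of the Frobenius element on the graded piece of
index `a` of the monodromy filtration are `q`-Weil numbers of weight `k + a`. -/
def WeightMonodromy (k : ℕ) : Prop := IsMWPure q k (M.frobOn k) (M.NOn k)

/-- `Z` is an operation in `a` variables on the cohomology of `X`, of degree `2 j`, which is real,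
compatible with the Hodge structures, with Frobenius and with the monodromy (up to the Tate twist
by `j`): `Z` is given by a class on the power `X ^ (a + 1)` which is both a Hodge class and a Tate
class. The correspondences

`Z(x_1, ..., x_a) = (p_(a+1))_* (p_1^* x_1 ∪ ... ∪ p_a^* x_a ∪ z)`

for the classes `z` of algebraic cycles on `X ^ (a + 1)` are examples (with `j = codim z - n a`). For
`a = 0` these are the classes of algebraic cycles on `X`, for `a = 2` and `z` the class of the small
diagonal one gets the cup product. -/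
structure IsHodgeTate {a : ℕ} (j : ℤ) (Z : MultilinearMap ℂ (fun _ : Fin a => A) A) : Prop where
  deg : ∀ (k : Fin a → ℕ) (x : Fin a → A), (∀ i, x i ∈ X.gr (k i)) →
    Z x = 0 ∨ ∃ l : ℕ, (l : ℤ) = ∑ i, (k i : ℤ) + 2 * j ∧ Z x ∈ X.gr l
  conj : ∀ x, X.conj (Z x) = Z (fun i => X.conj (x i))
  weil : ∀ x, X.weil (Z x) = Z (fun i => X.weil (x i))
  frob : ∀ x, M.frob (Z x) = (q : ℂ) ^ j • Z (fun i => M.frob (x i))
  mon : Leibniz M.N Z

end Monodromy

end Pool.Agent.R941.WD
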