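import Pool.Agent.H914R2.Sl2Rep

/-!
# The graded Jacobson-Morozov theorem for linear Lie algebras with non-degenerate trace form
-/

namespace Pool.Agent.R941.WD

open Module Module.End Pool.Agent.H914

section Ring

variable {R : Type*} [Ring R]

/-- `x y ^ (k + 1) - y ^ (k + 1) x = (k + 1) y ^ k (h - k)` if `[x, y] = h` and `[h, y] = - 2 y`. -/
lemma comm_pow {x y h : R} (hxy : x * y - y * x = h) (hhy : h * y - y * h = -(2 * y)) (k : ℕ) :
    x * y ^ (k + 1) - y ^ (k + 1) * x = ((k + 1 : ℕ) : R) * (y ^ k * (h - (k : R))) := by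
  induction k with
  | zero => simp [hxy]
  | succ k ih =>
    have h1 : x * y ^ (k + 1) = y ^ (k + 1) * x + ((k + 1 : ℕ) : R) * (y ^ k * (h - (k : R))) := by
      rw [← ih]; abel
    have h2 : x * y = y * x + h := by rw [← hxy]; abel
    have h3 : h * y = y * h - 2 * y := by
      rw [sub_eq_add_neg, ← hhy]; abel
    have hc : ∀ (m : ℕ) (z : R), z * (m : R) = (m : R) * z := fun m z => (Nat.cast_commute m z).symm.eq
    have h4 : (h - (k : R)) * y = y * (h - ((k + 2 : ℕ) : R)) := by
      rw [sub_mul, h3, mul_sub, ← hc k y]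
      push_cast
      rw [mul_add, two_mul, mul_two]
      abel
    have h5 : x * y ^ (k + 2) = y ^ (k + 1) * (x * y) +
        ((k + 1 : ℕ) : R) * (y ^ k * ((h - (k : R)) * y)) := by
      rw [pow_succ y (k + 1), ← mul_assoc, h1]
      simp only [add_mul, mul_assoc]
    rw [show k + 1 + 1 = k + 2 from rfl, h5, h2, h4]
    have h6 : y ^ (k + 2) = y ^ (k + 1) * y := pow_succ _ _
    have h7 : y ^ k * (y * (h - ((k + 2 : ℕ) : R))) = y ^ (k + 1) * (h - ((k + 2 : ℕ) : R)) := by
      rw [← mul_assoc, ← pow_succ]
    rw [h7, h6]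
    push_cast
    simp only [mul_sub, mul_add, add_mul, ← hc]
    have e1 : ∀ z : R, z * (k : R) = (k : R) * z := hc k
    simp only [e1, mul_assoc]
    noncomm_ring

end Ring

variable {K : Type*} [Field K] {V : Type*} [AddCommGroup V] [Module K V]

/-- The commutator with `x`. -/
noncomputable def adj (x : Module.End K V) : Module.End K (Module.End K V) :=
  LinearMap.mulLeft K x - LinearMap.mulRight K x

lemma adj_apply (x y : Module.End K V) : adj x y = x * y - y * x := rfl

lemma adj_lie (x y : Module.End K V) : adj x * adj y - adj y * adj x = adj (x * y - y * x) := by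
  ext1 z
  simp only [LinearMap.sub_apply, Module.End.mul_apply, adj_apply]
  noncomm_ring

variable [FiniteDimensional K V]

lemma trace_adj (x y z : Module.End K V) :
    LinearMap.trace K V (adj x y * z) = - LinearMap.trace K V (y * adj x z) := by
  simp only [adj_apply, sub_mul, mul_sub, map_sub]
  rw [mul_assoc x y z, LinearMap.trace_mul_comm K x (y * z), ← mul_assoc y x z, mul_assoc y z x]
  ring

lemma trace_adj_pair {H y z : Module.End K V} {a b : K} (hy : adj H y = a • y)
    (hz : adj H z = b • z) (hab : a + b ≠ 0) : LinearMap.trace K V (y * z) = 0 := by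
  have h := trace_adj H y z
  rw [hy, hz, smul_mul_assoc, mul_smul_comm, map_smul, map_smul, smul_eq_mul, smul_eq_mul] at h
  have h2 : (a + b) * LinearMap.trace K V (y * z) = 0 := by linear_combination h
  exact (mul_eq_zero.1 h2).resolve_left hab

variable [CharZero K]

lemma trace_eq_zero {H N z : Module.End K V} (hN : adj H N = (-2 : K) • N)
    (hz : adj H z = (2 : K) • z) (hNNz : adj N (adj N z) = 0) :
    LinearMap.trace K V (N * z) = 0 := by
  set w := adj N z with hw
  have hNw : N * w = w * N := by
    rw [adj_apply] at hNNz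
    exact sub_eq_zero.1 hNNz
  have hHw : H * w = w * H := by
    have h1 := congrArg (fun f : Module.End K (Module.End K V) => f z) (adj_lie H N)
    simp only [LinearMap.sub_apply, Module.End.mul_apply] at h1
    rw [← adj_apply H N, hN, hz, map_smul, ← hw] at h1
    have h2 : adj ((-2 : K) • N) z = (-2 : K) • w := by
      rw [hw, adj_apply, adj_apply, smul_sub, smul_mul_assoc, mul_smul_comm]
    rw [h2] at h1
    have h3 : adj H w = 0 := by
      have : adj H w = (2 : K) • w + (-2 : K) • w := by rw [← h1]; abel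
      rw [this, ← add_smul]; norm_num
    rw [adj_apply] at h3
    exact sub_eq_zero.1 h3
  have hnil : IsNilpotent w := by
    apply isNilpotent_of_trace_pow
    intro r
    have hc : Commute N (w ^ r) := (show Commute N w from hNw).pow_right r
    have h1 : w ^ (r + 1) = N * (z * w ^ r) - (z * w ^ r) * N := by
      rw [pow_succ', show w * w ^ r = (N * z - z * N) * w ^ r by rw [hw, adj_apply], sub_mul,
        mul_assoc, mul_assoc, mul_assoc, hc.eq]
    rw [h1, map_sub, LinearMap.trace_mul_comm, sub_self]
  have hnil2 : IsNilpotent (H * w) :=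
    Commute.isNilpotent_mul_left (show Commute H w from hHw) hnil
  have htr : LinearMap.trace K V (H * w) = 0 :=
    (LinearMap.isNilpotent_trace_of_isNilpotent hnil2).eq_zero
  have h1 : LinearMap.trace K V (adj H N * z) = LinearMap.trace K V (H * w) := by
    have h0 : LinearMap.trace K V (N * (H * z)) = LinearMap.trace K V (H * (z * N)) := by
      rw [LinearMap.trace_mul_comm, mul_assoc]
    rw [hw, adj_apply, adj_apply, sub_mul, mul_sub, map_sub, map_sub, mul_assoc, mul_assoc, h0]
  rw [htr, hN, smul_mul_assoc, map_smul, smul_eq_mul] at h1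
  exact (mul_eq_zero.1 h1).resolve_left (by norm_num)

/-- Morozov's lemma: the commutator with `h` does not have the eigenvalue `2` on the centralizer
of `N`. -/
lemma morozov {x N h z : Module.End K V} (hx : adj x N = h) (hN : adj h N = (-2 : K) • N)
    (hz : adj N z = 0) (hhz : adj h z = (2 : K) • z) : z = 0 := by
  have e1 : adj x * adj N - adj N * adj x = adj h := by rw [adj_lie, ← adj_apply, hx]
  have e2 : adj h * adj N - adj N * adj h = -(2 * adj N) := by
    rw [adj_lie, ← adj_apply, hN]
    ext1 y
    simp only [LinearMap.neg_apply, Module.End.mul_apply, adj_apply, two_mul, LinearMap.add_apply,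
      smul_mul_assoc, mul_smul_comm]
    module
  have e3 : IsNilpotent (adj N) := by
    apply Sl2.nil_of_comm (c := (-2 : K)) (by norm_num) (h := adj h)
    rw [e2]
    ext1 y
    simp only [LinearMap.neg_apply, LinearMap.smul_apply, two_mul, LinearMap.add_apply]
    module
  have e4 : ∀ (k : ℕ) (w : Module.End K V), adj h ((adj N ^ k) w) =
      (adj N ^ k) (adj h w) - (2 * (k : K)) • (adj N ^ k) w := by
    intro k
    induction k with
    | zero => intro w; simp
    | succ k ih =>
      intro w
      have e5 := congrArg (fun f : Module.End K (Module.End K V) => f ((adj N ^ k) w)) e2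
      simp only [LinearMap.sub_apply, Module.End.mul_apply, LinearMap.neg_apply, two_mul,
        LinearMap.add_apply] at e5
      rw [pow_succ', Module.End.mul_apply, Module.End.mul_apply, sub_eq_iff_eq_add.1 e5, ih, map_sub,
        map_smul]
      push_cast
      module
  have key : ∀ k : ℕ, ∃ w, z = (adj N ^ k) w := by
    intro k
    induction k with
    | zero => exact ⟨z, by simp⟩
    | succ k ih =>
      obtain ⟨w, hw⟩ := ih
      have e6 : (adj N ^ (k + 1)) w = 0 := by
        rw [pow_succ', Module.End.mul_apply, ← hw, hz]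
      have e7 : ((k + 1 : ℕ) : Module.End K (Module.End K V)) *
          (adj N ^ k * (adj h - (k : Module.End K (Module.End K V)))) =
          ((k + 1 : ℕ) : K) • (adj N ^ k * (adj h - ((k : K) • (1 : Module.End K (Module.End K V))))) := by
        rw [← nsmul_eq_mul, Nat.cast_smul_eq_nsmul, Nat.cast_smul_eq_nsmul, nsmul_eq_mul k 1, mul_one]
      have e5' := comm_pow e1 e2 k
      rw [e7] at e5'
      have e5 := congrArg (fun f : Module.End K (Module.End K V) => f w) e5'
      simp only [LinearMap.smul_apply, Module.End.mul_apply, LinearMap.sub_apply, map_sub, map_smul,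
        Module.End.one_apply] at e5
      rw [e6, map_zero, zero_sub] at e5
      have e8 := e4 k w
      rw [← hw, hhz] at e8
      rw [← hw] at e5
      have e9 : (adj N ^ k) (adj h w) = ((2 : K) + 2 * k) • z := by
        have : (adj N ^ k) (adj h w) = (2 : K) • z + (2 * (k : K)) • z := by rw [e8]; abel
        rw [this, add_smul]
      rw [e9] at e5
      have e10 : (((k + 1 : ℕ) : K) * ((k : K) + 2)) • z = (adj N ^ (k + 1)) (- adj x w) := by
        rw [map_neg, e5, ← sub_smul, smul_smul]
        congr 1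
        ring
      have e11 : (((k + 1 : ℕ) : K) * ((k : K) + 2)) ≠ 0 := by
        have : (((k + 1 : ℕ) : K) * ((k : K) + 2)) = (((k + 1) * (k + 2) : ℕ) : K) := by
          push_cast; ring
        rw [this]
        exact Nat.cast_ne_zero.2 (by positivity)
      refine ⟨(((k + 1 : ℕ) : K) * ((k : K) + 2))⁻¹ • (- adj x w), ?_⟩
      rw [map_smul, ← e10, smul_smul, inv_mul_cancel₀ e11, one_smul]
  obtain ⟨r, hr⟩ := e3
  obtain ⟨w, hw⟩ := key r
  rw [hw, hr]
  rfl

section Alg

variable (𝔤 : Submodule K (Module.End K V)) (hbr : ∀ x ∈ 𝔤, ∀ y ∈ 𝔤, adj x y ∈ 𝔤)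
  (hnd : ∀ x ∈ 𝔤, (∀ y ∈ 𝔤, LinearMap.trace K V (x * y) = 0) → x = 0)

omit [CharZero K] in
include hnd in
/-- Functionals on `𝔤` are given by the trace form. -/
lemma exists_rep (φ : Module.End K V →ₗ[K] K) :
    ∃ z ∈ 𝔤, ∀ y ∈ 𝔤, φ y = LinearMap.trace K V (z * y) := by
  let T : 𝔤 →ₗ[K] Module.Dual K 𝔤 :=
    { toFun := fun z =>
        { toFun := fun y => LinearMap.trace K V ((z : Module.End K V) * (y : Module.End K V))
          map_add' := fun a b => by simp [mul_add]
          map_smul' := fun a b => by simp }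
      map_add' := fun a b => by ext y; simp [add_mul]
      map_smul' := fun a b => by ext y; simp }
  have hinj : Function.Injective T := by
    rw [← LinearMap.ker_eq_bot, Submodule.eq_bot_iff]
    intro z hz
    have : (z : Module.End K V) = 0 := by
      apply hnd _ z.2
      intro y hy
      exact congrArg (fun f : Module.Dual K 𝔤 => f ⟨y, hy⟩) hz
    exact Subtype.ext this
  have hsurj : Function.Surjective T :=
    (LinearMap.injective_iff_surjective_of_finrank_eq_finrank
      (Subspace.dual_finrank_eq (K := K) (V := 𝔤)).symm).1 hinj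
  obtain ⟨z, hz⟩ := hsurj (φ.comp 𝔤.subtype)
  exact ⟨z, z.2, fun y hy => (congrArg (fun f : Module.Dual K 𝔤 => f ⟨y, hy⟩) hz).symm⟩

variable [IsAlgClosed K] {T : Module.End K (Module.End K V)} (hTg : ∀ x ∈ 𝔤, T x ∈ 𝔤)
  (hTm : ∀ x y, T (x * y) = T x * T y)
  (hTt : ∀ x, LinearMap.trace K V (T x) = LinearMap.trace K V x) (hTs : T.IsSemisimple)

include hTg hTs in
omit [CharZero K] in
lemma le_iSup_eigen : 𝔤 ≤ ⨆ μ : K, 𝔤 ⊓ T.eigenspace μ := by
  have h2 : ⨆ μ : K, T.eigenspace μ = ⊤ := hTs.iSup_eigenspace_eq_top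
  have h3 := Submodule.inf_iSup_genEigenspace (p := 𝔤) (f := T) hTg 1
  have h4 : ⨆ μ : K, T.genEigenspace μ 1 = ⊤ := h2
  rw [h4, inf_top_eq] at h3
  exact h3.le

include hTm hTt in
omit [FiniteDimensional K V] [CharZero K] [IsAlgClosed K] in
lemma trace_pair {y z : Module.End K V} {a b : K} (hy : T y = a • y)
    (hz : T z = b • z) (hab : a * b ≠ 1) : LinearMap.trace K V (y * z) = 0 := by
  have h := hTt (y * z)
  rw [hTm, hy, hz, smul_mul_assoc, mul_smul_comm, map_smul, map_smul, smul_eq_mul,
    smul_eq_mul] at h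
  have h2 : (a * b - 1) * LinearMap.trace K V (y * z) = 0 := by linear_combination h
  exact (mul_eq_zero.1 h2).resolve_left (sub_ne_zero.2 hab)

include hTm in
omit [FiniteDimensional K V] [CharZero K] [IsAlgClosed K] in
lemma T_adj (x y : Module.End K V) : T (adj x y) = adj (T x) (T y) := by
  rw [adj_apply, adj_apply, map_sub, hTm, hTm]

variable {H N : Module.End K V} {q : K} (hq : q ≠ 0) (hHN : adj H N = (-2 : K) • N)
  (hTN : T N = q⁻¹ • N) (hH2 : ∀ x ∈ 𝔤, T x = q • x → adj H x = (2 : K) • x)
  (hH0 : ∀ x ∈ 𝔤, T x = x → adj H x = 0)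

include hbr hnd hTg hTm hTt hTs hq hHN hTN hH2 in
/-- The element `N` is of the form `[x, N] = h`, `[h, N] = - 2 N` with `T x = q x`. -/
lemma exists_x (hNg : N ∈ 𝔤) :
    ∃ x ∈ 𝔤, T x = q • x ∧ adj N (adj N x) = (-2 : K) • N := by
  set S : Submodule K (Module.End K V) := 𝔤 ⊓ T.eigenspace q with hS
  suffices h : N ∈ S.map (adj N * adj N) by
    obtain ⟨x, hx, hx'⟩ := h
    refine ⟨(-2 : K) • x, Submodule.smul_mem _ _ hx.1, ?_, ?_⟩
    · rw [map_smul, mem_eigenspace_iff.1 hx.2, smul_comm]
    · rw [map_smul, map_smul]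
      rw [Module.End.mul_apply] at hx'
      rw [hx']
  by_contra hcon
  obtain ⟨φ, hφ, hle⟩ := Submodule.exists_le_ker_of_notMem hcon
  obtain ⟨z, hz, hzφ⟩ := exists_rep 𝔤 hnd φ
  have hdec := le_iSup_eigen 𝔤 hTg hTs
  -- the component of weight two
  have hz2 : ∃ z2 ∈ S, ∀ y, T y = q⁻¹ • y →
      LinearMap.trace K V (z * y) = LinearMap.trace K V (z2 * y) := by
    refine Submodule.iSup_induction _ (motive := fun z => ∃ z2 ∈ S, ∀ y, T y = q⁻¹ • y →
      LinearMap.trace K V (z * y) = LinearMap.trace K V (z2 * y)) (hdec hz) ?_ ?_ ?_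
    · intro μ w hw
      by_cases hμ : μ = q
      · subst hμ
        exact ⟨w, hw, fun y _ => rfl⟩
      · refine ⟨0, zero_mem _, fun y hy => ?_⟩
        rw [zero_mul, map_zero]
        apply trace_pair hTm hTt (mem_eigenspace_iff.1 hw.2) hy
        intro h
        apply hμ
        field_simp at h
        exact h
    · exact ⟨0, zero_mem _, fun y _ => rfl⟩
    · rintro a b ⟨a2, ha, ha'⟩ ⟨b2, hb, hb'⟩
      exact ⟨a2 + b2, add_mem ha hb, fun y hy => by
        rw [add_mul, add_mul, map_add, map_add, ha' y hy, hb' y hy]⟩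
  obtain ⟨z2, hz2, hz2'⟩ := hz2
  have hNN : ∀ (x : Module.End K V) (c : K), T x = c • x → T (adj N x) = (q⁻¹ * c) • adj N x := by
    intro x c hx
    rw [T_adj hTm, hTN, hx, map_smul]
    have h2 : adj (q⁻¹ • N) x = q⁻¹ • adj N x := by
      rw [adj_apply, adj_apply, smul_sub, smul_mul_assoc, mul_smul_comm]
    rw [h2, smul_smul, mul_comm]
  have hf : ∀ x : Module.End K V, T x = q • x →
      T (adj N (adj N x)) = q⁻¹ • adj N (adj N x) := by
    intro x hx
    rw [hNN _ _ (hNN x q hx), inv_mul_cancel₀ hq, mul_one]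
  have hfz : adj N (adj N z2) = 0 := by
    apply hnd _ (hbr _ hNg _ (hbr _ hNg _ hz2.1))
    intro y hy
    refine Submodule.iSup_induction _
      (motive := fun y => LinearMap.trace K V (adj N (adj N z2) * y) = 0) (hdec hy) ?_ ?_ ?_
    · intro μ w hw
      by_cases hμ : μ = q
      · subst hμ
        have h1 : adj N (adj N w) ∈ LinearMap.ker φ := hle ⟨w, hw, rfl⟩
        rw [LinearMap.mem_ker, hzφ _ (hbr _ hNg _ (hbr _ hNg _ hw.1)),
          hz2' _ (hf w (mem_eigenspace_iff.1 hw.2))] at h1
        rw [trace_adj, trace_adj, neg_neg, h1]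
      · apply trace_pair hTm hTt (hf z2 (mem_eigenspace_iff.1 hz2.2)) (mem_eigenspace_iff.1 hw.2)
        intro h
        apply hμ
        field_simp at h
        exact h
    · rw [mul_zero, map_zero]
    · intro a b ha hb
      rw [mul_add, map_add, ha, hb, add_zero]
  have h0 := trace_eq_zero hHN (hH2 _ hz2.1 (mem_eigenspace_iff.1 hz2.2)) hfz
  apply hφ
  rw [hzφ N hNg, hz2' N hTN, LinearMap.trace_mul_comm, h0]

include hbr hnd hTg hTm hTt hTs hq hHN hTN hH2 hH0 in
/-- The graded Jacobson-Morozov theorem. -/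
theorem jacobson_morozov (hNg : N ∈ 𝔤) :
    ∃ E ∈ 𝔤, ∃ h ∈ 𝔤, Sl2 h E N ∧ T h = h ∧ adj H h = 0 := by
  obtain ⟨x, hx, hx2, hxN⟩ := exists_x 𝔤 hbr hnd hTg hTm hTt hTs hq hHN hTN hH2 hNg
  set h := adj x N with hh
  have hNx : adj N x = - h := by rw [hh, adj_apply, adj_apply]; abel
  have hhg : h ∈ 𝔤 := hbr _ hx _ hNg
  have hhN : adj h N = (-2 : K) • N := by
    have : adj h N = - adj N h := by rw [adj_apply, adj_apply]; abel
    rw [this, show h = - adj N x by rw [hNx, neg_neg], map_neg, neg_neg, hxN]
  have hTh : T h = h := by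
    rw [hh, T_adj hTm, hx2, hTN, map_smul]
    have : adj (q • x) N = q • adj x N := by
      rw [adj_apply, adj_apply, smul_sub, smul_mul_assoc, mul_smul_comm]
    rw [this, smul_smul, inv_mul_cancel₀ hq, one_smul]
  -- the centralizer of `N` in weight two
  set Z : Submodule K (Module.End K V) :=
    𝔤 ⊓ (T.eigenspace q ⊓ LinearMap.ker (adj N)) with hZ
  have hstab : ∀ z ∈ Z, (adj h - (2 : K) • (1 : Module.End K (Module.End K V))) z ∈ Z := by
    intro z hz
    have hz1 := mem_eigenspace_iff.1 hz.2.1
    have hz2 : adj N z = 0 := hz.2.2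
    have h1 : adj h z ∈ Z := by
      refine ⟨hbr _ hhg _ hz.1, mem_eigenspace_iff.2 ?_, ?_⟩
      · rw [T_adj hTm, hTh, hz1, map_smul]
      · have h1 := congrArg (fun f : Module.End K (Module.End K V) => f z) (adj_lie h N)
        simp only [LinearMap.sub_apply, Module.End.mul_apply] at h1
        rw [← adj_apply h N, hhN, hz2, map_zero, zero_sub] at h1
        have h2 : adj ((-2 : K) • N) z = (-2 : K) • adj N z := by
          rw [adj_apply, adj_apply, smul_sub, smul_mul_assoc, mul_smul_comm]
        rw [h2, hz2, smul_zero, neg_eq_zero] at h1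
        exact h1
    exact sub_mem h1 (Submodule.smul_mem _ _ hz)
  set g : Module.End K Z := LinearMap.restrict _ hstab with hg
  have hinj : Function.Injective g := by
    rw [← LinearMap.ker_eq_bot, Submodule.eq_bot_iff]
    intro z hz
    have h1 : adj h (z : Module.End K V) = (2 : K) • (z : Module.End K V) := by
      have := congrArg (Subtype.val) (LinearMap.mem_ker.1 hz)
      rw [hg, LinearMap.coe_restrict_apply] at this
      exact sub_eq_zero.1 this
    exact Subtype.ext (morozov hh.symm hhN z.2.2.2 h1)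
  have hsurj : Function.Surjective g := LinearMap.injective_iff_surjective.1 hinj
  have hy0 : adj h x - (2 : K) • x ∈ Z := by
    refine ⟨sub_mem (hbr _ hhg _ hx) (Submodule.smul_mem _ _ hx), mem_eigenspace_iff.2 ?_, ?_⟩
    · have h1 : T (adj h x) = q • adj h x := by rw [T_adj hTm, hTh, hx2, map_smul]
      rw [map_sub, h1, map_smul, hx2, smul_comm, ← smul_sub]
    · change adj N (adj h x - (2 : K) • x) = 0
      rw [map_sub, map_smul, hNx]
      have h1 : adj N (adj h x) = adj (adj N h) x + adj h (adj N x) := by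
        simp only [adj_apply]
        noncomm_ring
      have h2 : adj N h = (2 : K) • N := by
        have : adj N h = - adj h N := by rw [adj_apply, adj_apply]; abel
        rw [this, hhN]
        module
      have h3 : adj ((2 : K) • N) x = (2 : K) • adj N x := by
        rw [adj_apply, adj_apply, smul_sub, smul_mul_assoc, mul_smul_comm]
      have h4 : adj h (-h) = 0 := by rw [adj_apply]; noncomm_ring
      rw [h1, h2, h3, hNx, h4]
      module
  obtain ⟨y, hy⟩ := hsurj ⟨_, hy0⟩
  have hy' : adj h (y : Module.End K V) - (2 : K) • (y : Module.End K V) =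
      adj h x - (2 : K) • x := by
    have := congrArg (Subtype.val) hy
    rw [hg, LinearMap.coe_restrict_apply] at this
    exact this
  have hE1 : adj (x - (y : Module.End K V)) N = h := by
    have h1 : adj (x - (y : Module.End K V)) N = adj x N + adj N y := by
      simp only [adj_apply]
      noncomm_ring
    rw [h1, show adj N (y : Module.End K V) = 0 from y.2.2.2, add_zero]
  have hE2 : adj h (x - (y : Module.End K V)) = (2 : K) • (x - (y : Module.End K V)) := by
    rw [map_sub, smul_sub, sub_eq_sub_iff_add_eq_add]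
    have e : adj h (y : Module.End K V) + (2 : K) • x = adj h x + (2 : K) • (y : Module.End K V) := by
      have := congrArg (fun t => t + (2 : K) • x + (2 : K) • (y : Module.End K V)) hy'
      have e1 : adj h (y : Module.End K V) - (2 : K) • (y : Module.End K V) + (2 : K) • x +
        (2 : K) • (y : Module.End K V) = adj h (y : Module.End K V) + (2 : K) • x := by abel
      have e2 : adj h x - (2 : K) • x + (2 : K) • x + (2 : K) • (y : Module.End K V) =
        adj h x + (2 : K) • (y : Module.End K V) := by abel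
      rw [← e1, this, e2]
    rw [← e]
    abel
  refine ⟨x - y, sub_mem hx y.2.1, h, hhg, ⟨?_, ?_, ?_⟩, hTh, hH0 h hhg hTh⟩
  · exact hE1
  · rw [← adj_apply, hE2, ofNat_smul_eq_nsmul, nsmul_eq_mul]; rfl
  · rw [← adj_apply, hhN, neg_smul, ofNat_smul_eq_nsmul, nsmul_eq_mul]; rfl

end Alg

end Pool.Agent.R941.WD
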