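import Pool.Agent.R941.WD.Sl2Mon
import Pool.Agent.Y143.Pure

/-!
# Weights
-/

namespace Pool.Agent.R941.WD

open Module Module.End Pool.Agent.Y143

/-! ### Weil numbers -/

lemma norm_of_weil {q : ℕ} {w : ℤ} {α : ℂ} (h : IsWeilNumber q w α) :
    ‖α‖ = (q : ℝ) ^ ((w : ℝ) / 2) := h.2 α (minpoly.aeval ℚ α)

lemma weil_unique {q : ℕ} (hq : 1 < q) {w w' : ℤ} {α : ℂ} (h : IsWeilNumber q w α)
    (h' : IsWeilNumber q w' α) : w = w' := by
  have h1 := (norm_of_weil h).symm.trans (norm_of_weil h')
  have hq1 : (1 : ℝ) < q := by exact_mod_cast hq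
  have h2 := (Real.rpow_right_inj (by linarith) (by linarith)).1 h1
  have h3 : (w : ℝ) = w' := by linarith
  exact_mod_cast h3

lemma weil_ne_zero {q : ℕ} (hq : 1 < q) {w : ℤ} {α : ℂ} (h : IsWeilNumber q w α) : α ≠ 0 := by
  intro h0
  have h1 := norm_of_weil h
  rw [h0, norm_zero] at h1
  have hq1 : (0 : ℝ) < q := by exact_mod_cast (by omega : 0 < q)
  exact (Real.rpow_pos_of_pos hq1 _).ne h1

lemma conj_mul {F E : Type*} [Field F] [Field E] [Algebra F E] [IsAlgClosed E] {α β z : E}
    (hα : IsAlgebraic F α) (hβ : IsAlgebraic F β)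
    (hz : Polynomial.aeval z (minpoly F (α * β)) = 0) :
    ∃ α' β' : E, Polynomial.aeval α' (minpoly F α) = 0 ∧ Polynomial.aeval β' (minpoly F β) = 0 ∧
      z = α' * β' := by
  have hαβ : IsAlgebraic F (α * β) := hα.mul hβ
  have hz' : IsAlgebraic F z := ⟨_, minpoly.ne_zero hαβ.isIntegral, hz⟩
  have hn : Normal F (algebraicClosure F E) := IsAlgClosure.normal F (algebraicClosure F E)
  set a : algebraicClosure F E := ⟨α, mem_algebraicClosure_iff.2 hα⟩ with ha
  set b : algebraicClosure F E := ⟨β, mem_algebraicClosure_iff.2 hβ⟩ with hb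
  set c : algebraicClosure F E := ⟨z, mem_algebraicClosure_iff.2 hz'⟩ with hc
  have hinj := (algebraMap (algebraicClosure F E) E).injective
  have hmin : ∀ x : algebraicClosure F E, minpoly F x = minpoly F (x : E) := fun x =>
    (minpoly.algebraMap_eq hinj x).symm
  have hconj : IsConjRoot F (a * b) c := by
    rw [isConjRoot_def]
    have h1 : minpoly F (a * b) = minpoly F (α * β) := hmin (a * b)
    have h2 : minpoly F c = minpoly F z := hmin c
    rw [h1, h2]
    exact minpoly.eq_of_irreducible_of_monic (minpoly.irreducible hαβ.isIntegral) hz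
      (minpoly.monic hαβ.isIntegral)
  obtain ⟨σ, hσ⟩ := hconj.symm.exists_algEquiv
  have h4 : ∀ x : algebraicClosure F E, Polynomial.aeval ((σ x : algebraicClosure F E) : E)
      (minpoly F (x : E)) = 0 := by
    intro x
    rw [← hmin x, ← minpoly.algEquiv_eq σ x, hmin]
    exact minpoly.aeval F _
  refine ⟨σ a, σ b, h4 a, h4 b, ?_⟩
  have h5 := congrArg (fun t : algebraicClosure F E => (t : E)) hσ
  simp only [map_mul] at h5
  exact h5.symm

lemma weil_mul {q : ℕ} (hq : 1 < q) {w w' : ℤ} {α β : ℂ} (h : IsWeilNumber q w α)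
    (h' : IsWeilNumber q w' β) : IsWeilNumber q (w + w') (α * β) := by
  refine ⟨h.1.mul h'.1, fun z hz => ?_⟩
  obtain ⟨α', β', h1, h2, rfl⟩ := conj_mul h.1 h'.1 hz
  have hq1 : (0 : ℝ) < q := by exact_mod_cast (by omega : 0 < q)
  rw [norm_mul, h.2 _ h1, h'.2 _ h2, ← Real.rpow_add hq1]
  congr 1
  push_cast
  ring

/-- The weight of a Weil number. -/
noncomputable def wt (q : ℕ) (α : ℂ) : ℤ :=
  open Classical in if h : ∃ w : ℤ, IsWeilNumber q w α then h.choose else 0

lemma wt_eq {q : ℕ} (hq : 1 < q) {w : ℤ} {α : ℂ} (h : IsWeilNumber q w α) : wt q α = w := by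
  have hex : ∃ w : ℤ, IsWeilNumber q w α := ⟨w, h⟩
  have h1 : wt q α = hex.choose := dif_pos hex
  rw [h1]
  exact weil_unique hq hex.choose_spec h

/-! ### Operators with prescribed eigenvalues -/

lemma hasEigenvalue_of_mem {K : Type*} [Field K] {V : Type*} [AddCommGroup V] [Module K V]
    {f : Module.End K V} {μ : K} {y : V} (hy : y ∈ f.maxGenEigenspace μ) (hy0 : y ≠ 0) :
    f.HasEigenvalue μ := by
  rw [Module.End.hasEigenvalue_iff]
  intro h0
  obtain ⟨k, hk⟩ := Module.End.mem_maxGenEigenspace f μ y |>.1 hy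
  apply hy0
  clear hy0 hy
  induction k with
  | zero => simpa using hk
  | succ k ih =>
    apply ih
    rw [pow_succ', Module.End.mul_apply] at hk
    have : ((f - μ • (1 : Module.End K V)) ^ k) y ∈ f.eigenspace μ := by
      rw [mem_eigenspace_iff]
      exact sub_eq_zero.1 (by simpa using hk)
    rw [h0] at this
    simpa using this

section Op

variable {K : Type*} [Field K] {V : Type*} [AddCommGroup V] [Module K V]

lemma exists_scalar_op {ι : Type*} [DecidableEq ι] (S : ι → Submodule K V)
    (h : DirectSum.IsInternal S) (c : ι → K) :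
    ∃ H : Module.End K V, ∀ i, ∀ x ∈ S i, H x = c i • x := by
  have hb : Function.Bijective (DirectSum.coeLinearMap S) := h
  set e : (DirectSum ι fun i => S i) ≃ₗ[K] V :=
    LinearEquiv.ofBijective (DirectSum.coeLinearMap S) hb with he
  refine ⟨(DirectSum.toModule K ι V fun i => c i • (S i).subtype) ∘ₗ e.symm.toLinearMap, ?_⟩
  intro i x hx
  have h1 : e.symm x = DirectSum.lof K ι (fun i => S i) i ⟨x, hx⟩ := by
    rw [LinearEquiv.symm_apply_eq, he, LinearEquiv.ofBijective_apply]
    exact (DirectSum.coeLinearMap_lof S i ⟨x, hx⟩).symm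
  simp only [LinearMap.comp_apply, LinearEquiv.coe_coe, h1, DirectSum.toModule_lof,
    LinearMap.smul_apply, Submodule.subtype_apply]

variable [FiniteDimensional K V] [IsAlgClosed K]

/-- An operator which acts by the scalar `c μ` on the generalized eigenspace of `f` for `μ`. -/
lemma exists_gen_op (f : Module.End K V) (c : K → K) :
    ∃ H : Module.End K V, ∀ μ, ∀ x ∈ f.maxGenEigenspace μ, H x = c μ • x := by
  classical
  exact exists_scalar_op _ (DirectSum.isInternal_submodule_of_iSupIndep_of_iSup_eq_top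
    (Module.End.independent_maxGenEigenspace f) (Module.End.iSup_maxGenEigenspace_eq_top f)) c

variable {f H : Module.End K V} {c : K → K} (hH : ∀ μ, ∀ x ∈ f.maxGenEigenspace μ, H x = c μ • x)

include hH

lemma gen_op_stable {p : Submodule K V} (hp : ∀ x ∈ p, f x ∈ p) : ∀ x ∈ p, H x ∈ p := by
  intro x hx
  have h1 := Submodule.inf_iSup_genEigenspace (p := p) (f := f) hp ⊤
  have h2 : ⨆ μ : K, f.genEigenspace μ ⊤ = ⊤ := Module.End.iSup_maxGenEigenspace_eq_top f
  rw [h2, inf_top_eq] at h1
  rw [h1] at hx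
  refine Submodule.iSup_induction _ (motive := fun x => H x ∈ p) hx ?_ ?_ ?_
  · intro μ y hy
    rw [hH μ y hy.2]
    exact p.smul_mem _ hy.1
  · rw [map_zero]; exact zero_mem _
  · intro a b ha hb
    rw [map_add]; exact add_mem ha hb

lemma gen_op_comm {g : Module.End K V} (hg : Commute f g) : ∀ x, H (g x) = g (H x) := by
  intro x
  have h2 : x ∈ ⨆ μ : K, f.maxGenEigenspace μ := by
    rw [Module.End.iSup_maxGenEigenspace_eq_top f]; trivial
  refine Submodule.iSup_induction _ (motive := fun x => H (g x) = g (H x)) h2 ?_ ?_ ?_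
  · intro μ y hy
    have h3 : g y ∈ f.maxGenEigenspace μ := Module.End.mapsTo_maxGenEigenspace_of_comm hg μ hy
    rw [hH μ y hy, hH μ _ h3, map_smul]
  · simp
  · intro a b ha hb
    rw [map_add, map_add, map_add, map_add, ha, hb]

lemma gen_op_semisimple [PerfectField K] : H.IsSemisimple := by
  classical
  set s : Finset K := (Module.End.finite_hasEigenvalue f).toFinset.image c with hs
  apply Module.End.isSemisimple_of_squarefree_aeval_eq_zero
    (p := ∏ a ∈ s, (Polynomial.X - Polynomial.C a))
  · have : (∏ a ∈ s, (Polynomial.X - Polynomial.C a)).Separable :=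
      Polynomial.separable_prod_X_sub_C_iff'.2 (fun x _ y _ h => h)
    exact this.squarefree
  · ext x
    have h2 : x ∈ ⨆ μ : K, f.maxGenEigenspace μ := by
      rw [Module.End.iSup_maxGenEigenspace_eq_top f]; trivial
    refine Submodule.iSup_induction _ (motive := fun x =>
      (Polynomial.aeval H (∏ a ∈ s, (Polynomial.X - Polynomial.C a))) x = (0 : Module.End K V) x)
      h2 ?_ ?_ ?_
    · intro μ y hy
      by_cases hy0 : y = 0
      · rw [hy0]; simp
      have hev : f.HasEigenvalue μ := by
        exact hasEigenvalue_of_mem hy hy0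
      have hmem : c μ ∈ s := by
        rw [hs, Finset.mem_image]
        exact ⟨μ, by simpa using hev, rfl⟩
      have h3 : H.HasEigenvector (c μ) y := ⟨mem_eigenspace_iff.2 (hH μ y hy), hy0⟩
      rw [Module.End.aeval_apply_of_hasEigenvector h3, Polynomial.eval_prod,
        Finset.prod_eq_zero hmem (by simp)]
      simp
    · simp
    · intro a b ha hb
      simp only [LinearMap.zero_apply] at ha hb ⊢
      rw [map_add, ha, hb, add_zero]

end Op

end Pool.Agent.R941.WD
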