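import Pool.Agent.R941.WD.Defs
import Pool.Agent.R941.WD.Weight

/-!
# The Leibniz rule for operations in several variables
-/

namespace Pool.Agent.R941.WD

universe u

open Module Module.End Pool.Agent.Y143

variable {A : Type u} [Ring A] [Algebra ℂ A] {a : ℕ} {Z : MultilinearMap ℂ (fun _ : Fin a => A) A}
  {D D' : Module.End ℂ A}

lemma Leibniz.add (h : Leibniz D Z) (h' : Leibniz D' Z) : Leibniz (D + D') Z := by
  intro x
  rw [LinearMap.add_apply, h x, h' x, ← Finset.sum_add_distrib]
  refine Finset.sum_congr rfl fun i _ => ?_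
  rw [LinearMap.add_apply, MultilinearMap.map_update_add]

lemma Leibniz.zero : Leibniz (0 : Module.End ℂ A) Z := by
  intro x
  simp

lemma Leibniz.smul (c : ℂ) (h : Leibniz D Z) : Leibniz (c • D) Z := by
  intro x
  rw [LinearMap.smul_apply, h x, Finset.smul_sum]
  refine Finset.sum_congr rfl fun i _ => ?_
  rw [LinearMap.smul_apply, MultilinearMap.map_update_smul]

lemma Leibniz.mul_aux (h : Leibniz D Z) (h' : Leibniz D' Z) (x : Fin a → A) :
    D (D' (Z x)) = ∑ j, Z (Function.update x j (D (D' (x j)))) +
      ∑ j, ∑ i, (if i = j then 0 else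
        Z (Function.update (Function.update x j (D' (x j))) i (D (x i)))) := by
  rw [h' x, map_sum, ← Finset.sum_add_distrib]
  refine Finset.sum_congr rfl fun j _ => ?_
  rw [h]
  have h1 : ∀ i, Z (Function.update (Function.update x j (D' (x j))) i
      (D (Function.update x j (D' (x j)) i))) =
      (if i = j then Z (Function.update x j (D (D' (x j)))) else 0) +
      (if i = j then 0 else
        Z (Function.update (Function.update x j (D' (x j))) i (D (x i)))) := by
    intro i
    by_cases hij : i = j
    · subst hij
      rw [if_pos rfl, if_pos rfl, add_zero, Function.update_self, Function.update_idem]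
    · rw [if_neg hij, if_neg hij, zero_add, Function.update_of_ne hij]
  rw [Finset.sum_congr rfl fun i _ => h1 i, Finset.sum_add_distrib, Finset.sum_ite_eq',
    if_pos (Finset.mem_univ j)]

lemma Leibniz.adj (h : Leibniz D Z) (h' : Leibniz D' Z) : Leibniz (adj D D') Z := by
  intro x
  rw [adj_apply, LinearMap.sub_apply, Module.End.mul_apply, Module.End.mul_apply,
    h.mul_aux h' x, h'.mul_aux h x]
  have h1 : (∑ j, ∑ i, (if i = j then 0 else
        Z (Function.update (Function.update x j (D' (x j))) i (D (x i))))) =
      ∑ j, ∑ i, (if i = j then 0 else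
        Z (Function.update (Function.update x j (D (x j))) i (D' (x i)))) := by
    rw [Finset.sum_comm]
    refine Finset.sum_congr rfl fun i _ => Finset.sum_congr rfl fun j _ => ?_
    by_cases hij : i = j
    · rw [if_pos hij, if_pos hij.symm]
    · rw [if_neg hij, if_neg (Ne.symm hij), Function.update_comm hij]
  rw [h1, add_sub_add_right_eq_sub, ← Finset.sum_sub_distrib]
  refine Finset.sum_congr rfl fun i _ => ?_
  rw [← MultilinearMap.map_update_sub]
  rfl


lemma upd_comp (σ : A → A) (x : Fin a → A) (i : Fin a) (y : A) :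
    (fun k => σ (Function.update x i y k)) = Function.update (fun k => σ (x k)) i (σ y) := by
  funext k
  by_cases hk : k = i
  · subst hk; simp
  · simp [Function.update_of_ne hk]

/-- Transport of the Leibniz rule. -/
lemma Leibniz.transport (σ : A →+ A) (τ : A → A) (hστ : ∀ x, σ (τ x) = x)
    (hσ : ∀ x, σ (Z x) = Z (fun i => σ (x i))) (hτ : ∀ x, τ (Z x) = Z (fun i => τ (x i)))
    (h : Leibniz D Z) (hD' : ∀ x, D' x = σ (D (τ x))) : Leibniz D' Z := by
  intro x
  rw [hD', hτ, h, map_sum]
  refine Finset.sum_congr rfl fun i _ => ?_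
  rw [hσ, upd_comp (fun y => σ y), hD']
  congr 2
  funext k
  exact hστ (x k)

/-- Transport of the Leibniz rule by an operator which is compatible with `Z` up to a scalar. -/
lemma Leibniz.transport_smul (σ τ : Module.End ℂ A) (hστ : ∀ x, σ (τ x) = x)
    (hτσ : ∀ x, τ (σ x) = x) {r : ℂ} (hr : r ≠ 0)
    (hσ : ∀ x, σ (Z x) = r • Z (fun i => σ (x i)))
    (h : Leibniz D Z) (hD' : ∀ x, D' x = σ (D (τ x))) : Leibniz D' Z := by
  have hτ : ∀ x, τ (Z x) = r⁻¹ • Z (fun i => τ (x i)) := by
    intro x
    have h1 := hσ (fun i => τ (x i))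
    have h2 : (fun i => σ (τ (x i))) = x := funext fun i => hστ (x i)
    rw [h2] at h1
    have h3 : Z x = r⁻¹ • σ (Z (fun i => τ (x i))) := by
      rw [h1, smul_smul, inv_mul_cancel₀ hr, one_smul]
    rw [h3, map_smul, hτσ]
  intro x
  rw [hD', hτ, map_smul, map_smul, h, map_sum, Finset.smul_sum]
  refine Finset.sum_congr rfl fun i _ => ?_
  rw [hσ, smul_smul, inv_mul_cancel₀ hr, one_smul, upd_comp (fun y => σ y), hD']
  congr 2
  funext k
  exact hστ (x k)

/-- Products of generalized eigenvectors of an operator compatible with `Z`. -/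
lemma gen_multi_aux (Φ : Module.End ℂ A) (r : ℂ)
    (hZ : ∀ x, Φ (Z x) = r • Z (fun i => Φ (x i))) (α : Fin a → ℂ) (s : ℕ) :
    ∀ (e : Fin a → ℕ) (x : Fin a → A), ∑ i, e i ≤ s →
      (∀ i, ((Φ - α i • (1 : Module.End ℂ A)) ^ (e i)) (x i) = 0) →
      ((Φ - (r * ∏ i, α i) • (1 : Module.End ℂ A)) ^ (s + 1)) (Z x) = 0 := by
  induction s with
  | zero =>
    intro e x he hx
    rcases isEmpty_or_nonempty (Fin a) with hemp | ⟨⟨i⟩⟩
    · rw [zero_add, pow_one, LinearMap.sub_apply, hZ, LinearMap.smul_apply, Module.End.one_apply]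
      have h1 : (fun i => Φ (x i)) = x := funext fun i => hemp.elim i
      rw [h1]
      simp
    · have h1 : e i = 0 := by
        have := Finset.single_le_sum (f := e) (fun _ _ => Nat.zero_le _) (Finset.mem_univ i)
        omega
      have h2 : x i = 0 := by
        have := hx i
        rw [h1] at this
        simpa using this
      rw [Z.map_coord_zero i h2, map_zero]
  | succ s ih =>
    intro e x he hx
    by_cases hzero : ∃ i, e i = 0
    · obtain ⟨i, hi⟩ := hzero
      have h2 : x i = 0 := by
        have := hx i
        rw [hi] at this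
        simpa using this
      rw [Z.map_coord_zero i h2, map_zero]
    push Not at hzero
    set w : Fin a → A := fun i => (Φ - α i • (1 : Module.End ℂ A)) (x i) with hw
    set v : Fin a → A := fun i => α i • x i with hv
    have h1 : (fun i => Φ (x i)) = w + v := by
      funext i
      simp [hw, hv]
    have h2 : (Φ - (r * ∏ i, α i) • (1 : Module.End ℂ A)) (Z x) =
        r • (Z (w + v) - Z v) := by
      have h3 : Z v = (∏ i, α i) • Z x := by rw [hv, Z.map_smul_univ]
      rw [LinearMap.sub_apply, hZ, h1, LinearMap.smul_apply, Module.End.one_apply, h3, smul_sub,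
        smul_smul]
    have h4 : Z (w + v) - Z v = ∑ t ∈ Finset.univ.erase (∅ : Finset (Fin a)), Z (t.piecewise w v) := by
      rw [Z.map_add_univ, ← Finset.sum_erase_add _ _ (Finset.mem_univ (∅ : Finset (Fin a))),
        Finset.piecewise_empty, add_sub_cancel_right]
    rw [pow_succ, Module.End.mul_apply, h2, h4, map_smul, map_sum, Finset.sum_eq_zero, smul_zero]
    intro t ht
    have htne : t.Nonempty := Finset.nonempty_iff_ne_empty.2 (Finset.ne_of_mem_erase ht)
    obtain ⟨i0, hi0⟩ := htne
    refine ih (fun i => if i ∈ t then e i - 1 else e i) _ ?_ ?_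
    · have h5 : ∑ i, (if i ∈ t then e i - 1 else e i) < ∑ i, e i := by
        apply Finset.sum_lt_sum
        · intro i _
          split_ifs <;> omega
        · exact ⟨i0, Finset.mem_univ _, by
            rw [if_pos hi0]
            have := hzero i0
            omega⟩
      omega
    · intro i
      by_cases hi : i ∈ t
      · rw [if_pos hi, Finset.piecewise_eq_of_mem _ _ _ hi, hw]
        simp only
        rw [← Module.End.mul_apply, ← pow_succ, Nat.sub_add_cancel (Nat.pos_of_ne_zero (hzero i))]
        exact hx i
      · rw [if_neg hi, Finset.piecewise_eq_of_notMem _ _ _ hi, hv]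
        simp only
        rw [map_smul, hx i, smul_zero]

lemma gen_multi (Φ : Module.End ℂ A) (r : ℂ)
    (hZ : ∀ x, Φ (Z x) = r • Z (fun i => Φ (x i))) (α : Fin a → ℂ) {x : Fin a → A}
    (hx : ∀ i, x i ∈ Φ.maxGenEigenspace (α i)) : Z x ∈ Φ.maxGenEigenspace (r * ∏ i, α i) := by
  simp only [Module.End.mem_maxGenEigenspace] at hx ⊢
  choose e he using hx
  exact ⟨∑ i, e i + 1, gen_multi_aux Φ r hZ α (∑ i, e i) e x le_rfl he⟩

/-- Two multilinear maps which agree on a generating set are equal. -/
lemma multi_ext {Q : A → Prop} (hind : ∀ P : A → Prop, (∀ x, Q x → P x) → P 0 →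
    (∀ x y, P x → P y → P (x + y)) → ∀ x, P x)
    {F G : MultilinearMap ℂ (fun _ : Fin a => A) A} (h : ∀ x, (∀ i, Q (x i)) → F x = G x) :
    F = G := by
  have key : ∀ (s : Finset (Fin a)) (x : Fin a → A), (∀ i, i ∉ s → Q (x i)) → F x = G x := by
    intro s
    induction s using Finset.induction_on with
    | empty => intro x hx; exact h x fun i => hx i (Finset.notMem_empty i)
    | insert i s hi ih =>
      intro x hx
      have h1 : ∀ y, F (Function.update x i y) = G (Function.update x i y) := by
        refine hind _ ?_ ?_ ?_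
        · intro y hy
          apply ih
          intro j hj
          by_cases hji : j = i
          · subst hji; rwa [Function.update_self]
          · rw [Function.update_of_ne hji]
            apply hx
            rw [Finset.mem_insert, not_or]
            exact ⟨hji, hj⟩
        · rw [F.map_update_zero, G.map_update_zero]
        · intro y z hy hz
          rw [F.map_update_add, G.map_update_add, hy, hz]
      have := h1 (x i)
      rwa [Function.update_eq_self] at this
  ext x
  exact key Finset.univ x fun i hi => absurd (Finset.mem_univ i) hi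

/-- The multilinear map `x ↦ ∑ Z (x_1, ..., D x_i, ..., x_a)`. -/
noncomputable def leibSum (D : Module.End ℂ A) (Z : MultilinearMap ℂ (fun _ : Fin a => A) A) :
    MultilinearMap ℂ (fun _ : Fin a => A) A :=
  ∑ i, Z.compLinearMap (Function.update (fun _ => LinearMap.id) i D)

lemma leibSum_apply (D : Module.End ℂ A) (Z : MultilinearMap ℂ (fun _ : Fin a => A) A)
    (x : Fin a → A) : leibSum D Z x = ∑ i, Z (Function.update x i (D (x i))) := by
  rw [leibSum, MultilinearMap.sum_apply]
  refine Finset.sum_congr rfl fun i _ => ?_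
  rw [MultilinearMap.compLinearMap_apply]
  congr 1
  funext k
  by_cases hk : k = i
  · subst hk; simp
  · simp [Function.update_of_ne hk]

/-- It suffices to check the Leibniz rule on a generating set. -/
lemma leibniz_of {Q : A → Prop} (hind : ∀ P : A → Prop, (∀ x, Q x → P x) → P 0 →
    (∀ x y, P x → P y → P (x + y)) → ∀ x, P x)
    (h : ∀ x, (∀ i, Q (x i)) → D (Z x) = ∑ i, Z (Function.update x i (D (x i)))) :
    Leibniz D Z := by
  have h1 : D.compMultilinearMap Z = leibSum D Z := by
    apply multi_ext hind
    intro x hx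
    rw [LinearMap.compMultilinearMap_apply, leibSum_apply]
    exact h x hx
  intro x
  rw [← leibSum_apply, ← h1, LinearMap.compMultilinearMap_apply]

end Pool.Agent.R941.WD
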