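import Pool.Agent.R941.WD.WOp

/-!
# The deviation from the weight-monodromy conjecture is a derivation
-/

namespace Pool.Agent.R941.WD

universe u

open Module Module.End Pool.Agent.Y143 Pool.Agent.H914

lemma two_mul_end {V : Type*} [AddCommGroup V] [Module ℂ V] (f : Module.End ℂ V) :
    2 * f = (2 : ℂ) • f := by
  rw [ofNat_smul_eq_nsmul, nsmul_eq_mul]; rfl

lemma mulLeft_ss {V : Type*} [AddCommGroup V] [Module ℂ V] [FiniteDimensional ℂ V]
    {a : Module.End ℂ V} (ha : a.IsSemisimple) :
    Module.End.IsSemisimple (LinearMap.mulLeft ℂ a) := by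
  apply Module.End.isSemisimple_of_squarefree_aeval_eq_zero ha.minpoly_squarefree
  have : Polynomial.aeval (Algebra.lmul ℂ (Module.End ℂ V) a) (minpoly ℂ a) = 0 := by
    rw [Polynomial.aeval_algHom_apply, minpoly.aeval, map_zero]
  simpa using! this

lemma mulRight_ss {V : Type*} [AddCommGroup V] [Module ℂ V] [FiniteDimensional ℂ V]
    {a : Module.End ℂ V} (ha : a.IsSemisimple) :
    Module.End.IsSemisimple (LinearMap.mulRight ℂ a) := by
  apply Module.End.isSemisimple_of_squarefree_aeval_eq_zero ha.minpoly_squarefree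
  have hrw : LinearMap.mulRight ℂ a =
      (Algebra.lsmul (A := (Module.End ℂ V)ᵐᵒᵖ) ℂ ℂ (Module.End ℂ V)) (.op a) := by
    ext; simp [Algebra.lsmul]
  rw [hrw, Polynomial.aeval_algHom_apply, Polynomial.aeval_op_apply, minpoly.aeval,
    MulOpposite.op_zero, map_zero]

section

variable {A : Type u} [Ring A] [Algebra ℂ A] {n : ℕ} {X : CohomologyAlgebra A n}
  {S : ∀ a : ℕ, Set (MultilinearMap ℂ (fun _ : Fin a => A) A)}

namespace CohomologyAlgebra

/-- The Lie algebra of the restrictions of the derivations to the space of primitive classes. -/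
def primDers (X : CohomologyAlgebra A n)
    (S : ∀ a : ℕ, Set (MultilinearMap ℂ (fun _ : Fin a => A) A)) :
    Submodule ℂ (Module.End ℂ X.prim) where
  carrier := {T | ∃ D, X.Good S D ∧ ∀ x : X.prim, (T x : A) = D x}
  add_mem' := by
    rintro T T' ⟨D, hD, h⟩ ⟨D', hD', h'⟩
    refine ⟨D + D', (X.ders S).add_mem hD hD', fun x => ?_⟩
    rw [LinearMap.add_apply, LinearMap.add_apply, Submodule.coe_add, h, h']
  zero_mem' := ⟨0, (X.ders S).zero_mem, fun x => rfl⟩
  smul_mem' := by
    rintro c T ⟨D, hD, h⟩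
    refine ⟨c • D, (X.ders S).smul_mem c hD, fun x => ?_⟩
    rw [LinearMap.smul_apply, LinearMap.smul_apply, Submodule.coe_smul, h]

end CohomologyAlgebra

end

variable {A : Type u} [Ring A] [Algebra ℂ A] {n q : ℕ} {X : CohomologyAlgebra A n}

/-- The Jacobson-Morozov theorem for the Lie algebra of derivations. -/
theorem exists_sl2 (hq : 1 < q) (M : Monodromy X q) {H σ τ : Module.End ℂ A}
    (hHg : X.Good M.ops H) (hHN : adj H M.N = (-2 : ℂ) • M.N)
    (hH : ∀ k α, ∀ x ∈ X.gr k, x ∈ M.Phi.maxGenEigenspace α → H x = ((wt q α : ℂ) - k) • x)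
    (hσ : ∀ α, ∀ x ∈ M.Phi.maxGenEigenspace α, σ x = α • x)
    (hτ : ∀ α, ∀ x ∈ M.Phi.maxGenEigenspace α, τ x = α⁻¹ • x) :
    ∃ E h : Module.End ℂ A, X.Good M.ops E ∧ X.Good M.ops h ∧ Sl2 h E M.N ∧
      (∀ x, σ (h x) = h (σ x)) ∧ adj H h = 0 := by
  have hfin : Module.Finite ℂ A := X.finite
  have hq0 : (q : ℂ) ≠ 0 := Nat.cast_ne_zero.2 (by omega)
  have hNg : X.Good M.ops M.N := ⟨M.N_mul, M.N_mem, M.N_eta, fun a Z hZ => by
    obtain ⟨j, h⟩ := hZ; exact h.mon⟩
  have hS : ∀ a, ∀ Z ∈ M.ops a, (∀ x, X.conj (Z x) = Z (fun i => X.conj (x i))) ∧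
      ∀ x, X.weil (Z x) = Z (fun i => X.weil (x i)) := by
    rintro a Z ⟨j, h⟩
    exact ⟨h.conj, h.weil⟩
  have hext : ∀ D : Module.End ℂ A, X.Good M.ops D → (∀ x : X.prim, D x = 0) → D = 0 :=
    fun D hD h => hD.eq_zero fun x hx => h ⟨x, hx⟩
  have hστ : ∀ x, σ (τ x) = x := fun x => (M.ss_inv hq hσ hτ x).1
  have hτσ : ∀ x, τ (σ x) = x := fun x => (M.ss_inv hq hσ hτ x).2
  have hbr : ∀ x ∈ X.primDers M.ops, ∀ y ∈ X.primDers M.ops, adj x y ∈ X.primDers M.ops := by
    rintro T ⟨D, hD, h⟩ T' ⟨D', hD', h'⟩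
    refine ⟨adj D D', X.adj_mem hD hD', fun x => ?_⟩
    simp only [adj_apply, LinearMap.sub_apply, Module.End.mul_apply, Submodule.coe_sub, h, h']
  have hnd : ∀ x ∈ X.primDers M.ops,
      (∀ y ∈ X.primDers M.ops, LinearMap.trace ℂ X.prim (x * y) = 0) → x = 0 := by
    rintro T ⟨D, hD, h⟩ h0
    have hT : T = hD.res := by
      ext x
      exact h x
    have h1 : D = 0 := by
      apply CohomologyAlgebra.nondeg hS hD
      intro D' hD'
      rw [← hT]
      exact h0 _ ⟨D', hD', fun x => rfl⟩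
    ext x
    rw [h, h1]
    rfl
  -- the restriction of the semisimple part of Frobenius
  have hσp : ∀ x ∈ X.prim, σ x ∈ X.prim :=
    gen_op_stable (c := fun α => α) hσ (fun x hx => M.prim_stable x hx)
  have hτp : ∀ x ∈ X.prim, τ x ∈ X.prim :=
    gen_op_stable (c := fun α => α⁻¹) hτ (fun x hx => M.prim_stable x hx)
  set Θ : Module.End ℂ X.prim := σ.restrict hσp with hΘ
  set Θi : Module.End ℂ X.prim := τ.restrict hτp with hΘi
  have hΘΘi : Θ * Θi = 1 := by
    ext x; exact hστ x
  have hΘiΘ : Θi * Θ = 1 := by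
    ext x; exact hτσ x
  set T : Module.End ℂ (Module.End ℂ X.prim) := LinearMap.mulLeft ℂ Θ * LinearMap.mulRight ℂ Θi
    with hT
  have hTa : ∀ y, T y = Θ * (y * Θi) := fun y => rfl
  have hTg : ∀ x ∈ X.primDers M.ops, T x ∈ X.primDers M.ops := by
    rintro y ⟨D, hD, h⟩
    refine ⟨σ * D * τ, M.ss_good hq hσ hτ hD, fun x => ?_⟩
    change σ ((y (Θi x) : X.prim) : A) = σ (D (τ x))
    rw [h]
    rfl
  have hTm : ∀ x y, T (x * y) = T x * T y := by
    intro x y
    rw [hTa, hTa, hTa]
    have : Θ * (x * Θi) * (Θ * (y * Θi)) = Θ * (x * (Θi * Θ) * (y * Θi)) := by noncomm_ring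
    rw [this, hΘiΘ, mul_one, mul_assoc]
  have hTt : ∀ x, LinearMap.trace ℂ X.prim (T x) = LinearMap.trace ℂ X.prim x := by
    intro x
    rw [hTa, LinearMap.trace_mul_comm, mul_assoc, hΘiΘ, mul_one]
  have hTs : Module.End.IsSemisimple (M := Module.End ℂ X.prim) T := by
    have s1 : Θ.IsSemisimple :=
      (gen_op_semisimple (c := fun α => α) hσ).restrict _
    have s2 : Θi.IsSemisimple :=
      (gen_op_semisimple (c := fun α => α⁻¹) hτ).restrict _
    exact (mulLeft_ss s1).mul_of_commute (LinearMap.commute_mulLeft_right Θ Θi) (mulRight_ss s2)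
  have hTN : T hNg.res = (q : ℂ)⁻¹ • hNg.res := by
    rw [hTa]
    ext x
    change σ (M.N (τ x)) = (q : ℂ)⁻¹ • M.N x
    rw [M.ss_N hq hσ, hστ]
  have hlift : ∀ {y : Module.End ℂ X.prim} {D : Module.End ℂ A}, X.Good M.ops D →
      (∀ x : X.prim, (y x : A) = D x) → ∀ c : ℂ, T y = c • y → ∀ x, σ (D x) = c • D (σ x) := by
    intro y D hD h c hc x
    have h1 : σ * D * τ - c • D = 0 := by
      apply hext _ ((X.ders M.ops).sub_mem (M.ss_good hq hσ hτ hD)
        ((X.ders M.ops).smul_mem c hD))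
      intro x
      have h2 := congrArg (fun f : Module.End ℂ X.prim => (f x : A)) hc
      change σ ((y (Θi x) : X.prim) : A) = c • ((y x : X.prim) : A) at h2
      rw [h, h] at h2
      change σ (D (τ x)) - c • D x = 0
      rw [← h2]
      exact sub_self _
    have h2 := congrArg (fun f : Module.End ℂ A => f (σ x)) (sub_eq_zero.1 h1)
    change σ (D (τ (σ x))) = c • D (σ x) at h2
    rwa [hτσ] at h2
  have hqw : IsWeilNumber q 2 (q : ℂ) := by
    have := (IsWeilNumber.one (Ω := ℂ) q).twist (by omega : q ≠ 0) 1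
    simpa using this
  have hH2 : ∀ y ∈ X.primDers M.ops, T y = (q : ℂ) • y → adj hHg.res y = (2 : ℂ) • y := by
    rintro y ⟨D, hD, h⟩ hy
    have h1 := M.adj_weight hq hσ hH hD.deg hqw (hlift hD h q hy)
    ext x
    have h2 := congrArg (fun f : Module.End ℂ A => f x) h1
    change H (y x : X.prim) - ((y (hHg.res x) : X.prim) : A) = (2 : ℂ) • ((y x : X.prim) : A)
    rw [h, h]
    have h3 : ((2 : ℤ) : ℂ) = 2 := by norm_num
    rw [h3] at h2
    exact h2
  have hH0 : ∀ y ∈ X.primDers M.ops, T y = y → adj hHg.res y = 0 := by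
    rintro y ⟨D, hD, h⟩ hy
    have h1 := M.adj_weight hq hσ hH hD.deg (IsWeilNumber.one (Ω := ℂ) q)
      (hlift hD h 1 (by rw [one_smul]; exact hy))
    ext x
    have h2 := congrArg (fun f : Module.End ℂ A => f x) h1
    change H (y x : X.prim) - ((y (hHg.res x) : X.prim) : A) = 0
    rw [h, h]
    have h3 : ((0 : ℤ) : ℂ) • D = 0 := by simp
    rw [h3] at h2
    exact h2
  have e0 : adj hHg.res hNg.res = (-2 : ℂ) • hNg.res := by
    ext x
    have := congrArg (fun f : Module.End ℂ A => f x) hHN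
    exact this
  obtain ⟨E', ⟨E, hE, hE'⟩, h', ⟨h, hh, hh'⟩, t, e1, e2⟩ := jacobson_morozov (X.primDers M.ops)
    hbr hnd hTg hTm hTt hTs hq0 e0 hTN hH2 hH0 ⟨M.N, hNg, fun x => rfl⟩
  have t1 := t.ef
  have t2 := t.he
  have t3 := t.hf
  have l1 : adj E M.N = h := by
    have : adj E M.N - h = 0 := by
      apply hext _ ((X.ders M.ops).sub_mem (X.adj_mem hE hNg) hh)
      intro x
      have := congrArg (fun f : Module.End ℂ X.prim => (f x : A)) t1
      change ((E' (hNg.res x) : X.prim) : A) - M.N (E' x : X.prim) = (h' x : X.prim) at this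
      rw [hE', hE', hh'] at this
      change E (M.N x) - M.N (E x) - h x = 0
      exact sub_eq_zero.2 this
    exact sub_eq_zero.1 this
  have l2 : adj h E = (2 : ℂ) • E := by
    have : adj h E - (2 : ℂ) • E = 0 := by
      apply hext _ ((X.ders M.ops).sub_mem (X.adj_mem hh hE) ((X.ders M.ops).smul_mem _ hE))
      intro x
      rw [two_mul_end] at t2
      have := congrArg (fun f : Module.End ℂ X.prim => (f x : A)) t2
      change ((h' (E' x) : X.prim) : A) - ((E' (h' x) : X.prim) : A) =
        (2 : ℂ) • ((E' x : X.prim) : A) at this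
      rw [hE', hE', hh', hh', hE'] at this
      change h (E x) - E (h x) - (2 : ℂ) • E x = 0
      exact sub_eq_zero.2 this
    exact sub_eq_zero.1 this
  have l3 : adj h M.N = -((2 : ℂ) • M.N) := by
    have : adj h M.N + (2 : ℂ) • M.N = 0 := by
      apply hext _ ((X.ders M.ops).add_mem (X.adj_mem hh hNg) ((X.ders M.ops).smul_mem _ hNg))
      intro x
      rw [two_mul_end] at t3
      have := congrArg (fun f : Module.End ℂ X.prim => (f x : A)) t3
      change ((h' (hNg.res x) : X.prim) : A) - M.N (h' x : X.prim) =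
        -((2 : ℂ) • M.N x) at this
      rw [hh', hh'] at this
      change h (M.N x) - M.N (h x) + (2 : ℂ) • M.N x = 0
      rw [show h (M.N x) - M.N (h x) = -((2 : ℂ) • M.N x) from this]
      exact neg_add_cancel _
    exact eq_neg_of_add_eq_zero_left this
  have l4 : adj H h = 0 := by
    apply hext _ (X.adj_mem hHg hh)
    intro x
    have := congrArg (fun f : Module.End ℂ X.prim => (f x : A)) e2
    change H (h' x : X.prim) - ((h' (hHg.res x) : X.prim) : A) = 0 at this
    rw [hh', hh'] at this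
    exact this
  refine ⟨E, h, hE, hh, ⟨l1, ?_, ?_⟩, ?_, l4⟩
  · rw [two_mul_end]; exact l2
  · rw [two_mul_end]; exact l3
  · intro x
    have := hlift hh hh' 1 (by rw [one_smul]; exact e1) x
    rwa [one_smul] at this

/-- The deviation from the weight-monodromy conjecture is measured by a derivation. -/
theorem main (hq : 1 < q) (M : Monodromy X q) :
    ∃ c : Module.End ℂ A, IsDerivationOp c ∧ (∀ k, ∀ x ∈ X.gr k, c x ∈ X.gr k) ∧
      (∀ (a : ℕ) (j : ℤ) (Z : MultilinearMap ℂ (fun _ : Fin a => A) A), M.IsHodgeTate j Z →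
        Leibniz c Z) ∧
      (∀ x, c (M.N x) = M.N (c x)) ∧
      (∀ (α : ℂ), ∀ x ∈ M.Phi.maxGenEigenspace α, c x ∈ M.Phi.maxGenEigenspace α) ∧
      (⨆ j : ℤ, c.eigenspace (j : ℂ) = ⊤) ∧
      ∀ k, M.WeightMonodromy k ↔ ∀ x ∈ X.gr k, c x = 0 := by
  have hfin : Module.Finite ℂ A := X.finite
  obtain ⟨H, hHg, hss, hHN, hH⟩ := M.exists_weight_op hq
  obtain ⟨σ, τ, hσ, hτ⟩ := M.exists_ss
  obtain ⟨E, h, hEg, hhg, t, hhσ, hHh⟩ := exists_sl2 hq M hHg hHN hH hσ hτ
  have hcomm : ∀ x, H (h x) = h (H x) := by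
    intro x
    have := congrArg (fun f : Module.End ℂ A => f x) hHh
    rw [adj_apply] at this
    exact sub_eq_zero.1 this
  have hcg : X.Good M.ops (H - h) := (X.ders _).sub_mem hHg hhg
  refine ⟨H - h, hcg.der, hcg.deg, fun a j Z hZ => hcg.kill a Z ⟨j, hZ⟩, ?_, ?_, ?_, ?_⟩
  · intro x
    have h1 := congrArg (fun f : Module.End ℂ A => f x) hHN
    have h2 := congrArg (fun f : Module.End ℂ A => f x) t.hf
    have h3 : (2 : Module.End ℂ A) (M.N x) = (2 : ℂ) • M.N x := by rw [ofNat_smul_eq_nsmul]; rfl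
    simp only [adj_apply, LinearMap.sub_apply, Module.End.mul_apply, LinearMap.smul_apply,
      LinearMap.neg_apply, h3] at h1 h2
    rw [LinearMap.sub_apply, LinearMap.sub_apply, map_sub, sub_eq_iff_eq_add.1 h1,
      sub_eq_iff_eq_add.1 h2]
    module
  · -- compatibility with Frobenius
    intro α x hx
    have h1 : σ (h x) = α • h x := by rw [hhσ, hσ α x hx, map_smul]
    have h2 : H x ∈ M.Phi.maxGenEigenspace α := by
      apply M.ss_eig hσ
      have h3 : σ * H * τ = H := by
        have h4 : ∀ x, σ (H x) = H (σ x) := by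
          intro x
          refine M.ind (P := fun x => σ (H x) = H (σ x)) ?_ ?_ ?_ x
          · intro k β y hy hy'
            rw [hH k β y hy hy', hσ β y hy', map_smul, map_smul, hσ β y hy', hH k β y hy hy',
              smul_comm]
          · simp
          · intro a b ha hb; simp only [map_add, ha, hb]
        ext x
        change σ (H (τ x)) = H x
        rw [h4, (M.ss_inv hq hσ hτ x).1]
      have h4 := congrArg (fun f : Module.End ℂ A => f (σ x)) h3
      change σ (H (τ (σ x))) = H (σ x) at h4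
      rw [(M.ss_inv hq hσ hτ x).2] at h4
      rw [h4, hσ α x hx, map_smul]
    exact sub_mem h2 (M.ss_eig hσ h1)
  · -- diagonalizability
    rw [eq_top_iff]
    intro x _
    have hx : x ∈ ⨆ j : ℤ, h.eigenspace (j : ℂ) := by rw [iSup_eig t]; trivial
    refine Submodule.iSup_induction _
      (motive := fun x => x ∈ ⨆ j : ℤ, (H - h).eigenspace (j : ℂ)) hx ?_ (zero_mem _)
      (fun _ _ => add_mem)
    intro j y hy
    have h1 := Submodule.inf_iSup_genEigenspace (p := h.eigenspace (j : ℂ)) (f := H) (by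
      intro z hz
      rw [mem_eigenspace_iff] at hz ⊢
      rw [← hcomm, hz, map_smul]) 1
    have h2 : ⨆ μ : ℂ, H.genEigenspace μ 1 = ⊤ := hss.iSup_eigenspace_eq_top
    rw [h2, inf_top_eq] at h1
    rw [h1] at hy
    refine Submodule.iSup_induction _
      (motive := fun x => x ∈ ⨆ j : ℤ, (H - h).eigenspace (j : ℂ)) hy ?_ (zero_mem _)
      (fun _ _ => add_mem)
    intro μ z hz
    by_cases hz0 : z = 0
    · rw [hz0]; exact zero_mem _
    have hz1 : h z = (j : ℂ) • z := mem_eigenspace_iff.1 hz.1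
    have hz2 : H z = μ • z := mem_eigenspace_iff.1 hz.2
    -- the eigenvalues of `H` are integers
    have hint : ∃ i : ℤ, μ = i := by
      by_contra hcon
      push Not at hcon
      have h3 : z ∈ ⨆ i : ℤ, H.eigenspace (i : ℂ) := by
        refine M.ind (P := fun z => z ∈ ⨆ i : ℤ, H.eigenspace (i : ℂ)) ?_ (zero_mem _)
          (fun _ _ => add_mem) z
        intro k α y hy hy'
        apply Submodule.mem_iSup_of_mem (wt q α - k)
        rw [mem_eigenspace_iff, hH k α y hy hy']
        push_cast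
        rfl
      have h4 := (Module.End.eigenspaces_iSupIndep H) μ
      have h5 : ⨆ i : ℤ, H.eigenspace (i : ℂ) ≤ ⨆ (j : ℂ) (_ : j ≠ μ), H.eigenspace j := by
        refine iSup_le fun i => ?_
        exact le_iSup₂_of_le (i : ℂ) (fun h => hcon i h.symm) le_rfl
      exact hz0 ((Submodule.disjoint_def.1 h4) z hz.2 (h5 h3))
    obtain ⟨i, rfl⟩ := hint
    apply Submodule.mem_iSup_of_mem (i - j)
    rw [mem_eigenspace_iff, LinearMap.sub_apply, hz1, hz2]
    push_cast
    module
  · intro k
    -- restriction to degree `k`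
    set Hk : Module.End ℂ (X.gr k) := H.restrict (fun x hx => hHg.deg k x hx) with hHk
    set hk : Module.End ℂ (X.gr k) := h.restrict (fun x hx => hhg.deg k x hx) with hhk
    set Ek : Module.End ℂ (X.gr k) := E.restrict (fun x hx => hEg.deg k x hx) with hEk
    have tk : Sl2 hk Ek (M.NOn k) := by
      constructor
      · ext x
        have := congrArg (fun f : Module.End ℂ A => f x) t.ef
        exact this
      · rw [two_mul_end]
        ext x
        have h1 := congrArg (fun f : Module.End ℂ A => f x) t.he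
        rw [two_mul_end] at h1
        exact h1
      · rw [two_mul_end]
        ext x
        have h1 := congrArg (fun f : Module.End ℂ A => f x) t.hf
        rw [two_mul_end] at h1
        exact h1
    have hgen : ∀ α, ∀ x ∈ (M.frobOn k).maxGenEigenspace α, Hk x = ((wt q α : ℂ) - (k : ℤ)) • x := by
      intro α x hx
      have h1 : (x : A) ∈ M.Phi.maxGenEigenspace α := by
        rw [Module.End.mem_maxGenEigenspace] at hx ⊢
        obtain ⟨i, hi⟩ := hx
        refine ⟨i, ?_⟩
        have h2 : ∀ (i : ℕ) (y : X.gr k), ((((M.frobOn k - α • (1 : Module.End ℂ (X.gr k))) ^ i) y :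
            X.gr k) : A) = ((M.Phi - α • (1 : Module.End ℂ A)) ^ i) y := by
          intro i
          induction i with
          | zero => intro y; simp
          | succ i ih =>
            intro y
            rw [pow_succ, Module.End.mul_apply, ih, pow_succ, Module.End.mul_apply]
            rfl
        rw [← h2, hi]
        rfl
      apply Subtype.ext
      rw [Submodule.coe_smul, Int.cast_natCast, ← hH k α x x.2 h1]
      rfl
    have hwk : ∀ (α : ℂ) (x : X.gr k), x ≠ 0 → M.frobOn k x = α • x →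
        ∃ w : ℤ, IsWeilNumber q w α := by
      intro α x hx h0
      refine M.weights α (x : A) (fun h1 => hx (Subtype.ext h1)) ?_
      exact congrArg Subtype.val h0
    have hk0 := pure_iff hq hwk hgen tk (fun x => Subtype.ext (hcomm x))
    unfold Monodromy.WeightMonodromy
    rw [hk0]
    constructor
    · intro h0 x hx
      have := congrArg (fun f : Module.End ℂ (X.gr k) => (f ⟨x, hx⟩ : A)) h0
      exact sub_eq_zero.2 this
    · intro h0
      ext x
      exact sub_eq_zero.1 (h0 x x.2)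

end Pool.Agent.R941.WD
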