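import Pool.Agent.R941.WD.Alg

/-!
# The Lie algebra of derivations is stable under adjunction
-/

namespace Pool.Agent.R941.WD

universe u

open Module Module.End Pool.Agent.Y143

variable {A : Type u} [Ring A] [Algebra ℂ A] {n : ℕ}

namespace CohomologyAlgebra

variable (X : CohomologyAlgebra A n)

/-- The operator `C D C⁻¹`. -/
noncomputable def tw (D : Module.End ℂ A) : Module.End ℂ A :=
  X.weil.toLinearMap ∘ₗ D ∘ₗ X.weil.symm.toLinearMap

lemma tw_apply (D : Module.End ℂ A) (x : A) : X.tw D x = X.weil (D (X.weil.symm x)) := rfl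

lemma weil_symm_mem (k : ℕ) (x : A) (hx : x ∈ X.gr k) : X.weil.symm x ∈ X.gr k := by
  have h1 := X.weil_weil k x hx
  have h2 : X.weil.symm x = (-1 : ℂ) ^ k • X.weil x := by
    rw [AlgEquiv.symm_apply_eq, map_smul, h1, smul_smul, ← mul_pow]
    norm_num
  rw [h2]
  exact Submodule.smul_mem _ _ (X.weil_mem k x hx)

/-- The adjoint of `D`. -/
noncomputable def dag (D : Module.End ℂ A) : Module.End ℂ A where
  toFun x := - X.conj (X.tw D (X.conj x))
  map_add' x y := by simp only [map_add, neg_add]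
  map_smul' c x := by
    rw [X.conj_smul, map_smul, X.conj_smul, RingHomCompTriple.comp_apply, RingHom.id_apply,
      smul_neg]

lemma dag_apply (D : Module.End ℂ A) (x : A) : X.dag D x = - X.conj (X.tw D (X.conj x)) := rfl

variable {X} {S : ∀ a : ℕ, Set (MultilinearMap ℂ (fun _ : Fin a => A) A)} {D : Module.End ℂ A}

lemma Good.tw (hS : ∀ a, ∀ Z ∈ S a, (∀ x, X.conj (Z x) = Z (fun i => X.conj (x i))) ∧
      ∀ x, X.weil (Z x) = Z (fun i => X.weil (x i))) (h : X.Good S D) : X.Good S (X.tw D) where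
  der x y := by
    simp only [X.tw_apply, map_mul, h.der (X.weil.symm x) (X.weil.symm y), map_add,
      AlgEquiv.apply_symm_apply]
  deg k x hx := X.weil_mem k _ (h.deg k _ (X.weil_symm_mem k x hx))
  eta := by
    have : X.weil.symm X.eta = X.eta := by rw [AlgEquiv.symm_apply_eq, X.weil_eta]
    rw [X.tw_apply, this, h.eta, map_zero]
  kill a Z hZ := by
    refine Leibniz.transport (X.weil.toRingEquiv.toAddMonoidHom) X.weil.symm
      (fun x => X.weil.apply_symm_apply x) (fun x => (hS a Z hZ).2 x) (fun x => ?_) (h.kill a Z hZ)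
      (fun x => rfl)
    rw [AlgEquiv.symm_apply_eq, (hS a Z hZ).2]
    congr 1
    funext i
    exact (X.weil.apply_symm_apply (x i)).symm

lemma Good.dag (hS : ∀ a, ∀ Z ∈ S a, (∀ x, X.conj (Z x) = Z (fun i => X.conj (x i))) ∧
      ∀ x, X.weil (Z x) = Z (fun i => X.weil (x i))) (h : X.Good S D) :
    X.Good S (X.dag D) where
  der x y := by
    simp only [X.dag_apply, map_mul, (h.tw hS).der (X.conj x) (X.conj y), map_add, X.conj_conj,
      neg_add, neg_mul, mul_neg]
  deg k x hx := neg_mem (X.conj_mem k _ ((h.tw hS).deg k _ (X.conj_mem k x hx)))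
  eta := by rw [X.dag_apply, X.conj_eta, (h.tw hS).eta, map_zero, neg_zero]
  kill a Z hZ := by
    have h1 := Leibniz.transport (D' := (-1 : ℂ) • X.dag D) X.conj.toAddMonoidHom X.conj
      (fun x => X.conj_conj x) (fun x => (hS a Z hZ).1 x) (fun x => (hS a Z hZ).1 x)
      ((h.tw hS).kill a Z hZ) (fun x => by
        rw [LinearMap.smul_apply, X.dag_apply, neg_smul, one_smul, neg_neg]; rfl)
    have h2 := h1.smul (-1)
    rwa [smul_smul, neg_mul_neg, one_mul, one_smul] at h2

variable (X)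

/-- The hermitian form on `gr k`. -/
noncomputable def hk (k : ℕ) (x y : A) : ℂ :=
  (-1 : ℂ) ^ (k * (k - 1) / 2) * X.integral (X.eta ^ (n - k) * (X.weil x * X.conj y))

variable {X}

lemma hk_adj (hS : ∀ a, ∀ Z ∈ S a, (∀ x, X.conj (Z x) = Z (fun i => X.conj (x i))) ∧
      ∀ x, X.weil (Z x) = Z (fun i => X.weil (x i))) (h : X.Good S D) (k : ℕ) (x y : A) :
    X.hk k (D x) y = X.hk k x (X.dag D y) := by
  have h1 : X.weil (D x) = X.tw D (X.weil x) := by rw [X.tw_apply, AlgEquiv.symm_apply_apply]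
  have h2 : X.conj (X.dag D y) = - X.tw D (X.conj y) := by
    rw [X.dag_apply, map_neg, X.conj_conj]
  have h3 := (h.tw hS).integral (X.eta ^ (n - k) * (X.weil x * X.conj y))
  rw [(h.tw hS).eta_mul, (h.tw hS).der, mul_add, map_add] at h3
  unfold hk
  rw [h1, h2, mul_neg, mul_neg, map_neg, eq_neg_of_add_eq_zero_left h3]

lemma conj_eta_pow (j : ℕ) : X.conj (X.eta ^ j) = X.eta ^ j := by rw [map_pow, X.conj_eta]

lemma hk_symm (k : ℕ) {x y : A} (hx : x ∈ X.gr k) (hy : y ∈ X.gr k) :
    (starRingEnd ℂ) (X.hk k x y) = X.hk k y x := by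
  unfold hk
  rw [map_mul, map_pow, map_neg, map_one, ← X.integral_conj, map_mul X.conj, map_mul X.conj,
    conj_eta_pow, X.conj_conj, ← X.weil_conj]
  congr 1
  rw [← X.integral_weil, map_mul X.weil, map_mul X.weil, map_pow, X.weil_eta,
    X.weil_weil k _ (X.conj_mem k x hx)]
  have h1 := X.graded_comm k k (X.weil y) (X.conj x) (X.weil_mem k y hy) (X.conj_mem k x hx)
  rw [smul_mul_assoc, h1, smul_smul, ← pow_add]
  have h2 : Even (k + k * k) := by
    have e : k + k * k = k * (k + 1) := by ring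
    rw [e]
    exact Nat.even_mul_succ_self k
  rw [h2.neg_one_pow, one_smul]

variable (X)

/-- The hermitian form on the space of primitive classes. -/
noncomputable def hh (x y : A) : ℂ :=
  ∑ k ∈ Finset.range (n + 1), X.hk k (X.proj k x) (X.proj k y)

variable {X}

lemma hh_adj (hS : ∀ a, ∀ Z ∈ S a, (∀ x, X.conj (Z x) = Z (fun i => X.conj (x i))) ∧
      ∀ x, X.weil (Z x) = Z (fun i => X.weil (x i))) (h : X.Good S D) (x y : A) :
    X.hh (D x) y = X.hh x (X.dag D y) := by
  unfold hh
  refine Finset.sum_congr rfl fun k _ => ?_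
  rw [← h.proj, ← (h.dag hS).proj, hk_adj hS h]

lemma hh_symm (x y : A) : (starRingEnd ℂ) (X.hh x y) = X.hh y x := by
  unfold hh
  rw [map_sum]
  exact Finset.sum_congr rfl fun k _ => hk_symm k (X.proj_mem k x) (X.proj_mem k y)

lemma hk_prim {x : A} (hx : x ∈ X.prim) {k : ℕ} (hk : k ≤ n) :
    ∃ r : ℝ, 0 ≤ r ∧ X.hk k (X.proj k x) (X.proj k x) = r ∧ (r = 0 → X.proj k x = 0) := by
  by_cases h0 : X.proj k x = 0
  · refine ⟨0, le_rfl, ?_, fun _ => h0⟩
    rw [h0]
    unfold CohomologyAlgebra.hk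
    simp
  · obtain ⟨r, hr, hr'⟩ := X.hodge_riemann k hk _ (X.proj_mem k x) ((hx k).1 hk) h0
    exact ⟨r, hr.le, hr', fun h => absurd h hr.ne'⟩

lemma hh_pos {x : A} (hx : x ∈ X.prim) :
    ∃ r : ℝ, 0 ≤ r ∧ X.hh x x = r ∧ (r = 0 → x = 0) := by
  classical
  have h1 : ∀ k ∈ Finset.range (n + 1), ∃ r : ℝ, 0 ≤ r ∧ X.hk k (X.proj k x) (X.proj k x) = r ∧
      (r = 0 → X.proj k x = 0) := fun k hk => hk_prim hx (by
        have := Finset.mem_range.1 hk; omega)
  choose! r hr1 hr2 hr3 using h1
  refine ⟨∑ k ∈ Finset.range (n + 1), r k, Finset.sum_nonneg hr1, ?_, fun h0 => ?_⟩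
  · unfold hh
    rw [Finset.sum_congr rfl hr2]
    push_cast
    rfl
  · have h2 := (Finset.sum_eq_zero_iff_of_nonneg hr1).1 h0
    apply X.ext_proj
    intro k
    by_cases hk : k ≤ n
    · exact hr3 k (Finset.mem_range.2 (by omega)) (h2 k (Finset.mem_range.2 (by omega)))
    · exact (hx k).2 (by omega)

lemma hh_add_right (x y z : A) : X.hh x (y + z) = X.hh x y + X.hh x z := by
  unfold hh hk
  rw [← Finset.sum_add_distrib]
  refine Finset.sum_congr rfl fun k _ => ?_
  simp only [map_add, mul_add]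

lemma hh_smul_right (c : ℂ) (x y : A) : X.hh x (c • y) = (starRingEnd ℂ) c * X.hh x y := by
  unfold hh hk
  rw [Finset.mul_sum]
  refine Finset.sum_congr rfl fun k _ => ?_
  rw [map_smul, X.conj_smul, mul_smul_comm, mul_smul_comm, map_smul, smul_eq_mul]
  ring

variable (X)

/-- The inner product on the space of primitive classes. -/
@[reducible] noncomputable def core : InnerProductSpace.Core ℂ X.prim where
  inner x y := X.hh (y : A) (x : A)
  conj_inner_symm x y := hh_symm _ _
  re_inner_nonneg x := by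
    obtain ⟨r, hr, hr', -⟩ := hh_pos x.2
    change 0 ≤ (X.hh (x : A) (x : A)).re
    rw [hr']
    exact hr
  add_left x y z := hh_add_right _ _ _
  smul_left x y c := hh_smul_right _ _ _
  definite x h := by
    obtain ⟨r, hr, hr', h0⟩ := hh_pos x.2
    change X.hh (x : A) (x : A) = 0 at h
    rw [hr'] at h
    exact Subtype.ext (h0 (by exact_mod_cast h))

variable {X}

/-- The restriction of a derivation to the space of primitive classes. -/
noncomputable def Good.res (h : X.Good S D) : Module.End ℂ X.prim := D.restrict h.prim_mem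

/-- The trace form on the Lie algebra of derivations is non-degenerate. -/
theorem nondeg (hS : ∀ a, ∀ Z ∈ S a, (∀ x, X.conj (Z x) = Z (fun i => X.conj (x i))) ∧
      ∀ x, X.weil (Z x) = Z (fun i => X.weil (x i))) (h : X.Good S D)
    (h0 : ∀ (D' : Module.End ℂ A) (h' : X.Good S D'),
      LinearMap.trace ℂ X.prim (h.res * h'.res) = 0) : D = 0 := by
  apply h.eq_zero
  have hfin : Module.Finite ℂ A := X.finite
  let _ : NormedAddCommGroup X.prim := X.core.toNormedAddCommGroup
  let _ : InnerProductSpace ℂ X.prim := InnerProductSpace.ofCore X.core.toCore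
  have hfd : FiniteDimensional ℂ X.prim := inferInstance
  have h1 := h0 _ (h.dag hS)
  rw [LinearMap.trace_mul_comm] at h1
  set b := stdOrthonormalBasis ℂ X.prim with hb
  rw [LinearMap.trace_eq_sum_inner _ b] at h1
  have h2 : ∀ i, inner ℂ (b i) (((h.dag hS).res * h.res) (b i)) =
      ((‖h.res (b i)‖ ^ 2 : ℝ) : ℂ) := by
    intro i
    have h3 : inner ℂ (b i) (((h.dag hS).res * h.res) (b i)) =
        inner ℂ (h.res (b i)) (h.res (b i)) := by
      change X.hh (X.dag D (D (b i : A))) (b i : A) = X.hh (D (b i : A)) (D (b i : A))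
      rw [← hh_symm, ← hh_adj hS h, hh_symm]
    rw [h3, inner_self_eq_norm_sq_to_K]
    push_cast
    rfl
  rw [Finset.sum_congr rfl fun i _ => h2 i, ← Complex.ofReal_sum] at h1
  have h4 : ∑ i, ‖h.res (b i)‖ ^ 2 = 0 := by exact_mod_cast h1
  have h5 := (Finset.sum_eq_zero_iff_of_nonneg (fun i _ => sq_nonneg _)).1 h4
  have h6 : h.res = 0 := by
    apply b.toBasis.ext
    intro i
    have h7 := h5 i (Finset.mem_univ i)
    rw [OrthonormalBasis.coe_toBasis, LinearMap.zero_apply]
    exact norm_eq_zero.1 (pow_eq_zero_iff (two_ne_zero) |>.1 h7)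
  intro x hx
  have h8 := congrArg (fun f : Module.End ℂ X.prim => (f ⟨x, hx⟩ : A)) h6
  exact h8

end CohomologyAlgebra

end Pool.Agent.R941.WD
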