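import Pool.Agent.R941.WD.JM
import Pool.Agent.Y143.Mon

/-!
# Finite-dimensional representations of `sl(2)` and the monodromy filtration
-/

namespace Pool.Agent.R941.WD

open Module Module.End Pool.Agent.H914 Pool.Agent.Y143

variable {K : Type*} [Field K] [CharZero K] {V : Type*} [AddCommGroup V] [Module K V]
  [FiniteDimensional K V]

/-- The sum of the eigenspaces of `h` for the integers at most `a`. -/
def fil (h : Module.End K V) (a : ℤ) : Submodule K V :=
  ⨆ j : {j : ℤ // j ≤ a}, h.eigenspace (((j : ℤ) : K))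

omit [CharZero K] [FiniteDimensional K V] in
lemma eig_le_fil (h : Module.End K V) {j a : ℤ} (hj : j ≤ a) : h.eigenspace (j : K) ≤ fil h a :=
  le_iSup (fun j : {j : ℤ // j ≤ a} => h.eigenspace (((j : ℤ) : K))) ⟨j, hj⟩

omit [CharZero K] [FiniteDimensional K V] in
lemma fil_mono (h : Module.End K V) : Monotone (fil h) := by
  intro a b hab
  exact iSup_le fun j => eig_le_fil h (j.2.trans hab)

omit [CharZero K] [FiniteDimensional K V] in
lemma fil_succ (h : Module.End K V) (a : ℤ) :
    fil h a = h.eigenspace (a : K) ⊔ fil h (a - 1) := by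
  apply le_antisymm
  · refine iSup_le fun j => ?_
    rcases eq_or_lt_of_le j.2 with h1 | h1
    · have h2 : h.eigenspace (((j : ℤ) : K)) = h.eigenspace (a : K) := by rw [h1]
      rw [h2]; exact le_sup_left
    · exact (eig_le_fil h (by omega)).trans le_sup_right
  · exact sup_le (eig_le_fil h le_rfl) (fil_mono h (by omega))

omit [FiniteDimensional K V] in
lemma disjoint_fil (h : Module.End K V) {a b : ℤ} (hab : a < b) :
    Disjoint (h.eigenspace (b : K)) (fil h a) := by
  have h1 := (Module.End.eigenspaces_iSupIndep h) (b : K)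
  refine h1.mono_right ?_
  refine iSup_le fun j => ?_
  refine le_iSup₂_of_le (((j : ℤ)) : K) ?_ le_rfl
  intro h2
  have : (j : ℤ) = b := by exact_mod_cast h2
  have := j.2
  omega

section Sl2

variable {h E N : Module.End K V} (t : Sl2 h E N)

include t

omit [FiniteDimensional K V] [CharZero K] in
lemma N_eig {μ : K} {x : V} (hx : h x = μ • x) : h (N x) = (μ - 2) • N x := by
  have h1 := congrArg (fun f : Module.End K V => f x) t.hf
  simp only [LinearMap.sub_apply, Module.End.mul_apply, LinearMap.neg_apply, hx, map_smul] at h1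
  have h2 : (2 : Module.End K V) (N x) = (2 : K) • N x := by rw [ofNat_smul_eq_nsmul]; rfl
  rw [h2] at h1
  rw [sub_eq_iff_eq_add.1 h1]
  module

omit [FiniteDimensional K V] [CharZero K] in
lemma E_eig {μ : K} {x : V} (hx : h x = μ • x) : h (E x) = (μ + 2) • E x := by
  have h1 := congrArg (fun f : Module.End K V => f x) t.he
  simp only [LinearMap.sub_apply, Module.End.mul_apply, hx, map_smul] at h1
  have h2 : (2 : Module.End K V) (E x) = (2 : K) • E x := by rw [ofNat_smul_eq_nsmul]; rfl
  rw [h2] at h1
  rw [sub_eq_iff_eq_add.1 h1]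
  module

omit [FiniteDimensional K V] [CharZero K] in
lemma N_pow_eig (k : ℕ) {μ : K} {x : V} (hx : h x = μ • x) :
    h ((N ^ k) x) = (μ - 2 * k) • (N ^ k) x := by
  induction k with
  | zero => simpa using hx
  | succ k ih =>
    rw [pow_succ', Module.End.mul_apply, N_eig t ih]
    congr 1
    push_cast; ring

omit [FiniteDimensional K V] [CharZero K] in
lemma E_pow_eig (k : ℕ) {μ : K} {x : V} (hx : h x = μ • x) :
    h ((E ^ k) x) = (μ + 2 * k) • (E ^ k) x := by
  induction k with
  | zero => simpa using hx
  | succ k ih =>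
    rw [pow_succ', Module.End.mul_apply, E_eig t ih]
    congr 1
    push_cast; ring

/-- `N ^ s` is injective on the weight space of weight `s`. -/
lemma N_pow_inj (s : ℕ) {x : V} (hx : h x = (s : K) • x) (h0 : (N ^ s) x = 0) : x = 0 := by
  by_contra hne
  have t' := t.neg_swap
  have hx' : (-h) x = -(s : K) • x := by rw [LinearMap.neg_apply, hx, neg_smul]
  have hpow : ∀ k : ℕ, ((-N) ^ k) x = (-1 : K) ^ k • (N ^ k) x := by
    intro k
    rw [neg_pow, Module.End.mul_apply]
    have : ((-1 : Module.End K V) ^ k) = ((-1 : K) ^ k) • (1 : Module.End K V) := by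
      rw [← neg_one_smul K (1 : Module.End K V), smul_pow, one_pow]
    rw [this]; rfl
  have h1 : ((-N) ^ (s + 1)) x = 0 := by
    rw [hpow, pow_succ' N, Module.End.mul_apply, h0, map_zero, smul_zero]
  have h2 : (-E) x = 0 := Sl2.f_eq_zero t' hx' h1
  have h3 := Sl2.e_pow_ne t' h2 hx' hne (le_refl s)
  rw [hpow, h0, smul_zero] at h3
  exact h3 rfl

/-- `E ^ s` is injective on the weight space of weight `- s`. -/
lemma E_pow_inj (s : ℕ) {x : V} (hx : h x = -(s : K) • x) (h0 : (E ^ s) x = 0) : x = 0 := by
  by_contra hne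
  have h1 : (E ^ (s + 1)) x = 0 := by rw [pow_succ', Module.End.mul_apply, h0, map_zero]
  have h2 : N x = 0 := Sl2.f_eq_zero t hx h1
  exact Sl2.e_pow_ne t h2 hx hne (le_refl s) h0

/-- `N ^ s` is surjective from weight `s` to weight `- s`. -/
lemma N_pow_surj (s : ℕ) {y : V} (hy : h y = -(s : K) • y) :
    ∃ x, h x = (s : K) • x ∧ (N ^ s) x = y := by
  have hE : ∀ y ∈ h.eigenspace (-(s : K)), (E ^ s) y ∈ h.eigenspace (s : K) := by
    intro y hy
    rw [mem_eigenspace_iff] at hy ⊢
    rw [E_pow_eig t s hy]
    congr 1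
    ring
  have hN : ∀ y ∈ h.eigenspace (s : K), (N ^ s) y ∈ h.eigenspace (-(s : K)) := by
    intro y hy
    rw [mem_eigenspace_iff] at hy ⊢
    rw [N_pow_eig t s hy]
    congr 1
    ring
  set fE : h.eigenspace (-(s : K)) →ₗ[K] h.eigenspace (s : K) := (E ^ s).restrict hE with hfE
  set fN : h.eigenspace (s : K) →ₗ[K] h.eigenspace (-(s : K)) := (N ^ s).restrict hN with hfN
  have i1 : Function.Injective fE := by
    rw [← LinearMap.ker_eq_bot, Submodule.eq_bot_iff]
    intro z hz
    apply Subtype.ext
    exact E_pow_inj t s (mem_eigenspace_iff.1 z.2) (congrArg Subtype.val (LinearMap.mem_ker.1 hz))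
  have i2 : Function.Injective fN := by
    rw [← LinearMap.ker_eq_bot, Submodule.eq_bot_iff]
    intro z hz
    apply Subtype.ext
    exact N_pow_inj t s (mem_eigenspace_iff.1 z.2) (congrArg Subtype.val (LinearMap.mem_ker.1 hz))
  have hdim : finrank K (h.eigenspace (s : K)) = finrank K (h.eigenspace (-(s : K))) :=
    le_antisymm (LinearMap.finrank_le_finrank_of_injective i2)
      (LinearMap.finrank_le_finrank_of_injective i1)
  obtain ⟨x, hx⟩ := (LinearMap.injective_iff_surjective_of_finrank_eq_finrank hdim).1 i2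
    ⟨y, mem_eigenspace_iff.2 hy⟩
  exact ⟨x, mem_eigenspace_iff.1 x.2, congrArg Subtype.val hx⟩

lemma ker_range_le (r : ℕ) (hr : N ^ r = 0) (i k : ℕ) (hk : r ≤ k + i) :
    LinearMap.ker N ⊓ LinearMap.range (N ^ k) ≤
      ⨆ j : {j : ℕ // k ≤ j}, LinearMap.ker N ⊓ h.eigenspace (-((j : ℕ) : K)) := by
  induction i generalizing k with
  | zero =>
    intro z hz
    obtain ⟨w, hw⟩ := hz.2
    have : N ^ k = 0 := pow_eq_zero_of_le (by omega) hr
    rw [this, LinearMap.zero_apply] at hw
    rw [← hw]
    exact zero_mem _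
  | succ i ih =>
    intro z hz
    obtain ⟨w, hw⟩ := hz.2
    have hNz : N z = 0 := hz.1
    -- (h + k) z lies in the next step
    have h1 := comm_pow t.ef t.hf k
    have h2 := congrArg (fun f : Module.End K V => f w) h1
    have e7 : ((k + 1 : ℕ) : Module.End K V) * (N ^ k * (h - (k : Module.End K V))) =
        ((k + 1 : ℕ) : K) • (N ^ k * (h - ((k : K) • (1 : Module.End K V)))) := by
      rw [← nsmul_eq_mul, Nat.cast_smul_eq_nsmul, Nat.cast_smul_eq_nsmul, nsmul_eq_mul k 1, mul_one]
    rw [e7] at h2
    simp only [LinearMap.smul_apply, Module.End.mul_apply, LinearMap.sub_apply, map_sub, map_smul,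
      Module.End.one_apply] at h2
    have h3 : (N ^ (k + 1)) w = 0 := by rw [pow_succ', Module.End.mul_apply, hw, hNz]
    have h4 : (N ^ k) (h w) = h z + (2 * (k : K)) • z := by
      have h5 : ∀ (k : ℕ) (w : V), h ((N ^ k) w) = (N ^ k) (h w) - (2 * (k : K)) • (N ^ k) w := by
        intro k
        induction k with
        | zero => intro w; simp
        | succ k ih' =>
          intro w
          have e5 := congrArg (fun f : Module.End K V => f ((N ^ k) w)) t.hf
          simp only [LinearMap.sub_apply, Module.End.mul_apply, LinearMap.neg_apply] at e5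
          have e6 : (2 : Module.End K V) (N ((N ^ k) w)) = (2 : K) • N ((N ^ k) w) := by
            rw [ofNat_smul_eq_nsmul]; rfl
          rw [e6] at e5
          rw [pow_succ', Module.End.mul_apply, Module.End.mul_apply, sub_eq_iff_eq_add.1 e5, ih',
            map_sub, map_smul]
          push_cast
          module
      have h6 := h5 k w
      rw [hw] at h6
      rw [h6]
      abel
    rw [h3, map_zero, zero_sub, h4, hw] at h2
    have h5 : h z + (k : K) • z ∈ LinearMap.ker N ⊓ LinearMap.range (N ^ (k + 1)) := by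
      constructor
      · have e5 := congrArg (fun f : Module.End K V => f z) t.hf
        simp only [LinearMap.sub_apply, Module.End.mul_apply, LinearMap.neg_apply, hNz,
          map_zero, zero_sub, neg_zero] at e5
        change N (h z + (k : K) • z) = 0
        rw [map_add, map_smul, hNz, neg_eq_zero.1 e5]
        simp
      · refine ⟨((k + 1 : ℕ) : K)⁻¹ • (- E w), ?_⟩
        have hk0 : ((k + 1 : ℕ) : K) ≠ 0 := Nat.cast_ne_zero.2 (Nat.succ_ne_zero k)
        rw [map_smul, map_neg, h2, smul_smul, inv_mul_cancel₀ hk0, one_smul]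
        module
    have h6 := ih (k + 1) (by omega) h5
    -- invert h + k on the sum of the eigenspaces
    have h7 : ∃ u ∈ ⨆ j : {j : ℕ // k ≤ j}, LinearMap.ker N ⊓ h.eigenspace (-((j : ℕ) : K)),
        h u + (k : K) • u = h z + (k : K) • z := by
      refine Submodule.iSup_induction _ (motive := fun y => ∃ u ∈ ⨆ j : {j : ℕ // k ≤ j},
        LinearMap.ker N ⊓ h.eigenspace (-((j : ℕ) : K)), h u + (k : K) • u = y) h6 ?_ ?_ ?_
      · rintro ⟨j, hj⟩ y hy
        have hy1 := mem_eigenspace_iff.1 hy.2
        have hne : (-(j : K) + k) ≠ 0 := by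
          intro h0
          have : (k : K) = j := by linear_combination h0
          have : k = j := by exact_mod_cast this
          omega
        refine ⟨(-(j : K) + k)⁻¹ • y, ?_, ?_⟩
        · exact Submodule.mem_iSup_of_mem ⟨j, by omega⟩ (Submodule.smul_mem _ _ hy)
        · rw [map_smul, hy1, smul_smul, smul_smul, ← add_smul]
          have : (-(j : K) + k)⁻¹ * (-(j : K)) + (k : K) * (-(j : K) + k)⁻¹ = 1 := by
            field_simp
          simp only
          rw [this, one_smul]
      · exact ⟨0, zero_mem _, by simp⟩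
      · rintro a b ⟨u, hu, hu'⟩ ⟨v, hv, hv'⟩
        refine ⟨u + v, add_mem hu hv, ?_⟩
        rw [← hu', ← hv', map_add, smul_add]
        abel
    obtain ⟨u, hu, hu'⟩ := h7
    have h8 : z - u ∈ LinearMap.ker N ⊓ h.eigenspace (-(k : K)) := by
      have hNu : N u = 0 := by
        have : ⨆ j : {j : ℕ // k ≤ j}, LinearMap.ker N ⊓ h.eigenspace (-((j : ℕ) : K)) ≤
          LinearMap.ker N := iSup_le fun j => inf_le_left
        exact this hu
      constructor
      · change N (z - u) = 0
        rw [map_sub, hNz, hNu, sub_zero]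
      · change z - u ∈ h.eigenspace (-(k : K))
        rw [mem_eigenspace_iff, map_sub]
        have : h z = h u + (k : K) • u - (k : K) • z := by rw [hu']; abel
        rw [this]
        module
    have h9 : z = (z - u) + u := by abel
    rw [h9]
    exact add_mem (Submodule.mem_iSup_of_mem (⟨k, le_rfl⟩ : {j : ℕ // k ≤ j}) h8) hu

lemma ker_pow_le (m : ℕ) :
    LinearMap.ker (N ^ m) ≤ ⨆ j : ℤ, h.eigenspace (j : K) := by
  obtain ⟨r, hr⟩ := t.nil_f
  induction m with
  | zero =>
    intro x hx
    have : x = 0 := by simpa using hx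
    rw [this]; exact zero_mem _
  | succ m ih =>
    intro v hv
    have hv' : (N ^ (m + 1)) v = 0 := hv
    have h1 : (N ^ m) v ∈ LinearMap.ker N ⊓ LinearMap.range (N ^ m) := by
      refine ⟨?_, ⟨v, rfl⟩⟩
      change N ((N ^ m) v) = 0
      rw [← Module.End.mul_apply, ← pow_succ', hv']
    have h2 := ker_range_le t r hr r m (by omega) h1
    have h3 : ∃ v' ∈ ⨆ j : ℤ, h.eigenspace (j : K), (N ^ m) v' = (N ^ m) v := by
      refine Submodule.iSup_induction _ (motive := fun y => ∃ v' ∈ ⨆ j : ℤ, h.eigenspace (j : K),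
        (N ^ m) v' = y) h2 ?_ ?_ ?_
      · rintro ⟨j, hj⟩ y hy
        have hy1 := mem_eigenspace_iff.1 hy.2
        have hy2 : N y = 0 := hy.1
        have key : ∀ i : ℕ, i ≤ j → ∃ c : K, c ≠ 0 ∧ (N ^ i) ((E ^ i) y) = c • y := by
          intro i
          induction i with
          | zero => intro _; exact ⟨1, one_ne_zero, by simp⟩
          | succ i ih' =>
            intro hi
            obtain ⟨c, hc, hc'⟩ := ih' (by omega)
            have h4 := Sl2.f_e_pow t hy2 hy1 i
            refine ⟨((i + 1 : ℕ) * ((j : K) - i)) * c, ?_, ?_⟩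
            · refine mul_ne_zero (mul_ne_zero (Nat.cast_ne_zero.2 (Nat.succ_ne_zero i)) ?_) hc
              intro h0
              have : (j : K) = i := by linear_combination h0
              have : j = i := by exact_mod_cast this
              omega
            · rw [pow_succ, Module.End.mul_apply, h4, map_smul, hc', smul_smul]
              congr 1
              push_cast
              ring
        obtain ⟨c, hc, hc'⟩ := key m hj
        refine ⟨c⁻¹ • (E ^ m) y, ?_, ?_⟩
        · apply Submodule.smul_mem
          apply Submodule.mem_iSup_of_mem (-(j : ℤ) + 2 * m)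
          rw [mem_eigenspace_iff, E_pow_eig t m hy1]
          push_cast
          rfl
        · rw [map_smul, hc', smul_smul, inv_mul_cancel₀ hc, one_smul]
      · exact ⟨0, zero_mem _, map_zero _⟩
      · rintro a b ⟨u, hu, hu'⟩ ⟨v, hv, hv'⟩
        exact ⟨u + v, add_mem hu hv, by rw [map_add, hu', hv']⟩
    obtain ⟨v', hv1, hv2⟩ := h3
    have h4 : v - v' ∈ LinearMap.ker (N ^ m) := by
      change (N ^ m) (v - v') = 0
      rw [map_sub, hv2, sub_self]
    have h5 : v = (v - v') + v' := by abel
    rw [h5]
    exact add_mem (ih h4) hv1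

/-- `h` is diagonalizable with integral eigenvalues. -/
lemma iSup_eig : ⨆ j : ℤ, h.eigenspace (j : K) = ⊤ := by
  obtain ⟨r, hr⟩ := t.nil_f
  rw [eq_top_iff]
  intro x _
  apply ker_pow_le t r
  rw [hr]; rfl

lemma eig_int_of_ne {j : ℤ} {x : V} (hx : h x = (j : K) • x) (s : ℕ) :
    (N ^ s) x ∈ h.eigenspace ((j - 2 * s : ℤ) : K) := by
  rw [mem_eigenspace_iff, N_pow_eig t s hx]
  push_cast
  rfl

lemma N_pow_fil (s : ℕ) {a : ℤ} {x : V} (hx : x ∈ fil h a) : (N ^ s) x ∈ fil h (a - 2 * s) := by
  have h1 : fil h a ≤ (fil h (a - 2 * s)).comap (N ^ s) := by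
    refine iSup_le fun j => fun y hy => ?_
    have h2 := eig_int_of_ne t (mem_eigenspace_iff.1 hy) s
    exact eig_le_fil h (by have := j.2; omega) h2
  exact h1 hx

/-- The filtration defined by the eigenvalues of `h` is the monodromy filtration of `N`. -/
lemma isMonodromyFiltration_fil : IsMonodromyFiltration N (fil h) where
  mono := fil_mono h
  bot := by
    have hfin : {μ : K | h.HasEigenvalue μ}.Finite := Module.End.finite_hasEigenvalue h
    have hfin2 : {j : ℤ | h.HasEigenvalue (j : K)}.Finite :=
      hfin.preimage (fun a _ b _ hab => by exact_mod_cast hab)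
    obtain ⟨B, hB⟩ := hfin2.bddBelow
    refine ⟨B - 1, ?_⟩
    rw [eq_bot_iff]
    refine iSup_le fun j => ?_
    by_contra hne
    have h1 : h.HasEigenvalue (((j : ℤ)) : K) := by
      rw [Module.End.hasEigenvalue_iff]
      intro h0
      exact hne h0.le
    have := hB h1
    have := j.2
    omega
  top := by
    have hfin : {μ : K | h.HasEigenvalue μ}.Finite := Module.End.finite_hasEigenvalue h
    have hfin2 : {j : ℤ | h.HasEigenvalue (j : K)}.Finite :=
      hfin.preimage (fun a _ b _ hab => by exact_mod_cast hab)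
    obtain ⟨B, hB⟩ := hfin2.bddAbove
    refine ⟨B, ?_⟩
    rw [eq_top_iff, ← iSup_eig t]
    refine iSup_le fun j => ?_
    by_cases hj : h.HasEigenvalue ((j : ℤ) : K)
    · exact eig_le_fil h (hB hj)
    · rw [Module.End.hasEigenvalue_iff, not_not] at hj
      rw [hj]
      exact bot_le
  map a x hx := by
    have := N_pow_fil t 1 hx
    simpa using this
  inj a x hx h0 := by
    rw [fil_succ] at hx
    obtain ⟨y, hy, z, hz, rfl⟩ := Submodule.mem_sup.1 hx
    have hy' : h y = ((a : ℕ) : K) • y := by
      have := mem_eigenspace_iff.1 hy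
      simpa using this
    have h1 := N_pow_fil t a hz
    have h2 : (N ^ a) z ∈ fil h (-a - 1) := by
      rwa [show (a : ℤ) - 1 - 2 * a = -a - 1 by ring] at h1
    have h3 : (N ^ a) y ∈ fil h (-a - 1) := by
      have := sub_mem h0 h2
      rwa [map_add, add_sub_cancel_right] at this
    have h4 : (N ^ a) y ∈ h.eigenspace ((-(a : ℤ) : ℤ) : K) := by
      have := eig_int_of_ne t (j := (a : ℤ)) (x := y) (by simpa using hy') a
      rwa [show (a : ℤ) - 2 * a = -a by ring] at this
    have h5 : (N ^ a) y = 0 := by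
      have := (disjoint_fil h (a := -(a : ℤ) - 1) (b := -(a : ℤ)) (by omega))
      exact (Submodule.disjoint_def.1 this) _ h4 h3
    rw [N_pow_inj t a hy' h5, zero_add]
    exact hz
  surj a y hy := by
    rw [fil_succ] at hy
    obtain ⟨u, hu, z, hz, rfl⟩ := Submodule.mem_sup.1 hy
    have hu' : h u = -(a : K) • u := by
      have := mem_eigenspace_iff.1 hu
      simpa using this
    obtain ⟨x, hx, hxu⟩ := N_pow_surj t a hu'
    refine ⟨x, eig_le_fil h le_rfl (mem_eigenspace_iff.2 (by simpa using hx)), ?_⟩
    rw [hxu, add_sub_cancel_left]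
    exact hz

end Sl2

/-- The monodromy filtration is unique. -/
lemma monodromyFiltration_unique {N : Module.End K V} {M M' : ℤ → Submodule K V}
    (h : IsMonodromyFiltration N M) (h' : IsMonodromyFiltration N M') : M = M' := by
  have key : ∀ {M M' : ℤ → Submodule K V}, IsMonodromyFiltration N M →
      IsMonodromyFiltration N M' → ∀ s, M s ≤ M' s := by
    intro M M' h h' s x hx
    have := IsMonodromyFiltrationOn.functorial h.on h'.on LinearMap.id (fun x hx => hx)
      (one_ne_zero (α := K)) (fun x _ => by simp) s hx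
    simpa using this
  funext s
  exact le_antisymm (key h h' s) (key h' h s)

end Pool.Agent.R941.WD
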