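import Pool.Agent.R941.WD.Pos
import Pool.Agent.R941.WD.Crit
import Pool.Agent.Y143.WeilNum

/-!
# The weight derivation
-/

namespace Pool.Agent.R941.WD

universe u

open Module Module.End Pool.Agent.Y143 Pool.Agent.H914

section

variable {A : Type u} [Ring A] [Algebra ℂ A]

/-- Products of generalized eigenvectors of an algebra endomorphism. -/
lemma gen_mul_aux (Φ : A →ₐ[ℂ] A) (α β : ℂ) (s : ℕ) : ∀ (a b : ℕ) (x y : A), a + b ≤ s →
    ((Φ.toLinearMap - α • (1 : Module.End ℂ A)) ^ a) x = 0 →
    ((Φ.toLinearMap - β • (1 : Module.End ℂ A)) ^ b) y = 0 →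
    ((Φ.toLinearMap - (α * β) • (1 : Module.End ℂ A)) ^ s) (x * y) = 0 := by
  induction s with
  | zero =>
    intro a b x y hab hx hy
    have ha : a = 0 := by omega
    subst ha
    have : x = 0 := by simpa using hx
    rw [this, zero_mul, map_zero]
  | succ s ih =>
    intro a b x y hab hx hy
    rcases Nat.eq_zero_or_pos a with ha | ha
    · subst ha
      have : x = 0 := by simpa using hx
      rw [this, zero_mul, map_zero]
    rcases Nat.eq_zero_or_pos b with hb | hb
    · subst hb
      have : y = 0 := by simpa using hy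
      rw [this, mul_zero, map_zero]
    obtain ⟨a, rfl⟩ := Nat.exists_eq_succ_of_ne_zero ha.ne'
    obtain ⟨b, rfl⟩ := Nat.exists_eq_succ_of_ne_zero hb.ne'
    set P := Φ.toLinearMap - α • (1 : Module.End ℂ A) with hP
    set Q := Φ.toLinearMap - β • (1 : Module.End ℂ A) with hQ
    have h1 : (Φ.toLinearMap - (α * β) • (1 : Module.End ℂ A)) (x * y) =
        P x * Φ y + (α • x) * Q y := by
      simp only [hP, hQ, LinearMap.sub_apply, LinearMap.smul_apply, Module.End.one_apply,
        AlgHom.toLinearMap_apply, map_mul]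
      rw [sub_mul, mul_sub, smul_mul_assoc, smul_mul_assoc, mul_smul_comm, smul_smul]
      abel
    have hcomm : Commute Q Φ.toLinearMap := by
      rw [hQ]
      exact (Commute.refl _).sub_left ((Commute.one_left _).smul_left _)
    have h2 : (P ^ a) (P x) = 0 := by
      rw [← Module.End.mul_apply, ← pow_succ]; exact hx
    have h3 : (Q ^ (b + 1)) (Φ y) = 0 := by
      have := congrArg (fun f : Module.End ℂ A => f y) (hcomm.pow_left (b + 1)).eq
      simp only [Module.End.mul_apply, AlgHom.toLinearMap_apply] at this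
      rw [this, show (Q ^ (b + 1)) y = 0 from hy, map_zero]
    have h4 : (P ^ (a + 1)) (α • x) = 0 := by
      rw [map_smul, show (P ^ (a + 1)) x = 0 from hx, smul_zero]
    have h5 : (Q ^ b) (Q y) = 0 := by
      rw [← Module.End.mul_apply, ← pow_succ]; exact hy
    rw [pow_succ, Module.End.mul_apply, h1, map_add]
    rw [ih a (b + 1) (P x) (Φ y) (by omega) h2 h3, ih (a + 1) b (α • x) (Q y) (by omega) h4 h5,
      add_zero]

lemma gen_mul (Φ : A →ₐ[ℂ] A) {α β : ℂ} {x y : A}
    (hx : x ∈ Module.End.maxGenEigenspace Φ.toLinearMap α)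
    (hy : y ∈ Module.End.maxGenEigenspace Φ.toLinearMap β) :
    x * y ∈ Module.End.maxGenEigenspace Φ.toLinearMap (α * β) := by
  rw [Module.End.mem_maxGenEigenspace] at hx hy ⊢
  obtain ⟨a, ha⟩ := hx
  obtain ⟨b, hb⟩ := hy
  exact ⟨a + b, gen_mul_aux Φ α β (a + b) a b x y le_rfl ha hb⟩

end

variable {A : Type u} [Ring A] [Algebra ℂ A] {n q : ℕ} {X : CohomologyAlgebra A n}
  (M : Monodromy X q) (hq : 1 < q)

namespace Monodromy

/-- The operations given by Hodge-Tate classes. -/
def ops (a : ℕ) : Set (MultilinearMap ℂ (fun _ : Fin a => A) A) := {Z | ∃ j : ℤ, M.IsHodgeTate j Z}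

lemma Phi_apply (x : A) : M.Phi x = M.frob x := rfl

lemma weights' (α : ℂ) (x : A) (hx : x ≠ 0) (h : M.Phi x = α • x) :
    ∃ w : ℤ, IsWeilNumber q w α := M.weights α x hx h

/-- Induction on homogeneous generalized eigenvectors of Frobenius. -/
lemma ind {P : A → Prop}
    (h : ∀ k α, ∀ x ∈ X.gr k, x ∈ M.Phi.maxGenEigenspace α → P x) (h0 : P 0)
    (ha : ∀ x y, P x → P y → P (x + y)) (x : A) : P x := by
  have hfin : Module.Finite ℂ A := X.finite
  refine X.hom_induction ?_ h0 ha x
  intro k x hx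
  have h1 := Submodule.inf_iSup_genEigenspace (p := X.gr k) (f := M.Phi)
    (fun x hx => M.frob_mem k x hx) ⊤
  have h2 : ⨆ α : ℂ, M.Phi.genEigenspace α ⊤ = ⊤ := Module.End.iSup_maxGenEigenspace_eq_top M.Phi
  rw [h2, inf_top_eq] at h1
  rw [h1] at hx
  exact Submodule.iSup_induction _ (motive := P) hx (fun α y hy => h k α y hy.1 hy.2) h0 ha

lemma eig_mem {α : ℂ} {x : A} (hx : M.Phi x = α • x) : x ∈ M.Phi.maxGenEigenspace α :=
  (Module.End.genEigenspace M.Phi α).monotone le_top (mem_eigenspace_iff.2 hx)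

include hq in
/-- The weight derivation. -/
theorem exists_weight_op : ∃ H : Module.End ℂ A, X.Good M.ops H ∧
    H.IsSemisimple ∧ adj H M.N = (-2 : ℂ) • M.N ∧
    ∀ k α, ∀ x ∈ X.gr k, x ∈ M.Phi.maxGenEigenspace α → H x = ((wt q α : ℂ) - k) • x := by
  have hfin : Module.Finite ℂ A := X.finite
  obtain ⟨H1, hH1⟩ := exists_gen_op M.Phi (fun α => (wt q α : ℂ))
  obtain ⟨H2, hH2⟩ := exists_scalar_op X.gr X.isInternal (fun k => (k : ℂ))
  have hH : ∀ k α, ∀ x ∈ X.gr k, x ∈ M.Phi.maxGenEigenspace α →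
      (H1 - H2) x = ((wt q α : ℂ) - k) • x := by
    intro k α x hx hx'
    rw [LinearMap.sub_apply, hH1 α x hx', hH2 k x hx, sub_smul]
  have hwt : ∀ {α : ℂ} {x : A}, x ∈ M.Phi.maxGenEigenspace α → x ≠ 0 →
      IsWeilNumber q (wt q α) α := fun hx hx0 => weight_of_mem hq M.weights' hx hx0
  have hq0 : (q : ℂ) ≠ 0 := Nat.cast_ne_zero.2 (by omega)
  have hkill : ∀ (k : ℕ) (s : A), s ∈ X.gr (2 * k) → M.frob s = (q : ℂ) ^ k • s →
      (H1 - H2) s = 0 := by
    intro k s hs hs'
    rw [hH (2 * k) ((q : ℂ) ^ k) s hs (M.eig_mem hs')]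
    have h1 : IsWeilNumber q (2 * (k : ℤ)) ((q : ℂ) ^ k) := by
      have := (IsWeilNumber.one (Ω := ℂ) q).twist (by omega : q ≠ 0) (k : ℤ)
      simpa using this
    rw [wt_eq hq h1]
    push_cast
    rw [sub_self, zero_smul]
  have hgood : X.Good M.ops (H1 - H2) := by
    refine ⟨?_, ?_, ?_, ?_⟩
    · intro x y
      revert y
      refine M.ind (P := fun x => ∀ y, (H1 - H2) (x * y) = (H1 - H2) x * y + x * (H1 - H2) y)
        ?_ ?_ ?_ x
      · intro k α x hx hx' y
        refine M.ind (P := fun y => (H1 - H2) (x * y) = (H1 - H2) x * y + x * (H1 - H2) y)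
          ?_ ?_ ?_ y
        · intro j β y hy hy'
          by_cases hx0 : x = 0
          · rw [hx0]; simp
          by_cases hy0 : y = 0
          · rw [hy0]; simp
          rw [hH k α x hx hx', hH j β y hy hy',
            hH (k + j) (α * β) (x * y) (X.mul_mem _ _ _ _ hx hy) (gen_mul _ hx' hy'),
            wt_eq hq (weil_mul hq (hwt hx' hx0) (hwt hy' hy0)), smul_mul_assoc, mul_smul_comm,
            ← add_smul]
          congr 1
          push_cast
          ring
        · simp
        · intro y z hy hz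
          rw [mul_add, map_add, hy, hz, map_add, mul_add, mul_add]
          abel
      · intro y; simp
      · intro x z hx hz y
        rw [add_mul, map_add, hx, hz, map_add, add_mul, add_mul]
        abel
    · intro k x hx
      refine sub_mem (gen_op_stable hH1 (fun x hx => M.frob_mem k x hx) x hx) ?_
      rw [hH2 k x hx]
      exact Submodule.smul_mem _ _ hx
    · apply hkill 1 X.eta
      · exact X.eta_mem
      · rw [pow_one]; exact M.frob_eta
    · rintro a Z ⟨j, hZ⟩
      refine leibniz_of (Q := fun x => ∃ (k : ℕ) (α : ℂ), x ∈ X.gr k ∧ x ∈ M.Phi.maxGenEigenspace α)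
        (fun P hP h0 ha => M.ind (fun k α x hx hx' => hP x ⟨k, α, hx, hx'⟩) h0 ha) ?_
      intro x hx
      choose k α hk hα using hx
      by_cases hZ0 : Z x = 0
      · rw [hZ0, map_zero, Finset.sum_eq_zero]
        intro i _
        rw [hH (k i) (α i) (x i) (hk i) (hα i), MultilinearMap.map_update_smul,
          Function.update_eq_self, hZ0, smul_zero]
      have hxi : ∀ i, x i ≠ 0 := fun i h0 => hZ0 (Z.map_coord_zero i h0)
      rcases hZ.deg k x hk with h0 | ⟨l, hl, hZl⟩
      · exact absurd h0 hZ0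
      have hgenZ : Z x ∈ M.Phi.maxGenEigenspace ((q : ℂ) ^ j * ∏ i, α i) :=
        gen_multi M.Phi _ (fun x => hZ.frob x) α hα
      have hprod : ∀ s : Finset (Fin a), IsWeilNumber q (∑ i ∈ s, wt q (α i)) (∏ i ∈ s, α i) := by
        intro s
        induction s using Finset.induction_on with
        | empty => simpa using (IsWeilNumber.one (Ω := ℂ) q)
        | insert i s hi ih =>
          rw [Finset.sum_insert hi, Finset.prod_insert hi]
          exact weil_mul hq (hwt (hα i) (hxi i)) ih
      have hwZ : IsWeilNumber q (∑ i, wt q (α i) + 2 * j) ((q : ℂ) ^ j * ∏ i, α i) :=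
        (hprod Finset.univ).twist (by omega : q ≠ 0) j
      rw [hH l _ _ hZl hgenZ, wt_eq hq hwZ]
      have h1 : ∀ i, Z (Function.update x i ((H1 - H2) (x i))) =
          ((wt q (α i) : ℂ) - k i) • Z x := by
        intro i
        rw [hH (k i) (α i) (x i) (hk i) (hα i), MultilinearMap.map_update_smul,
          Function.update_eq_self]
      rw [Finset.sum_congr rfl fun i _ => h1 i, ← Finset.sum_smul]
      congr 1
      have h2 : (l : ℂ) = ∑ i, (k i : ℂ) + 2 * j := by exact_mod_cast hl
      rw [h2, Finset.sum_sub_distrib]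
      push_cast
      ring
  refine ⟨H1 - H2, hgood, ?_, ?_, hH⟩
  · have s1 : H1.IsSemisimple := gen_op_semisimple hH1
    have s2 : H2.IsSemisimple := by
      apply Module.End.isSemisimple_of_squarefree_aeval_eq_zero
        (p := ∏ a ∈ Finset.range (2 * n + 1), (Polynomial.X - Polynomial.C (a : ℂ)))
      · have : (∏ a ∈ Finset.range (2 * n + 1), (Polynomial.X - Polynomial.C (a : ℂ))).Separable :=
          Polynomial.separable_prod_X_sub_C_iff'.2 (fun x _ y _ h => by exact_mod_cast h)
        exact this.squarefree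
      · ext x
        refine X.hom_induction (P := fun x => (Polynomial.aeval H2
          (∏ a ∈ Finset.range (2 * n + 1), (Polynomial.X - Polynomial.C (a : ℂ)))) x =
          (0 : Module.End ℂ A) x) ?_ ?_ ?_ x
        · intro k y hy
          by_cases hy0 : y = 0
          · rw [hy0]; simp
          have hk : k ≤ 2 * n := by
            by_contra hk
            rw [X.gr_top k (by omega)] at hy
            exact hy0 (by simpa using hy)
          have h3 : H2.HasEigenvector (k : ℂ) y := ⟨mem_eigenspace_iff.2 (hH2 k y hy), hy0⟩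
          rw [Module.End.aeval_apply_of_hasEigenvector h3, Polynomial.eval_prod,
            Finset.prod_eq_zero (Finset.mem_range.2 (by omega : k < 2 * n + 1)) (by simp)]
          simp
        · simp
        · intro a b ha hb
          simp only [LinearMap.zero_apply] at ha hb ⊢
          rw [map_add, ha, hb, add_zero]
    apply s1.sub_of_commute _ s2
    ext x
    simp only [Module.End.mul_apply]
    refine X.hom_induction (P := fun x => H1 (H2 x) = H2 (H1 x)) ?_ ?_ ?_ x
    · intro k y hy
      rw [hH2 k y hy, map_smul,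
        hH2 k _ (gen_op_stable hH1 (fun x hx => M.frob_mem k x hx) y hy)]
    · simp
    · intro a b ha hb
      simp only [map_add, ha, hb]
  · ext x
    rw [adj_apply]
    refine M.ind (P := fun x => ((H1 - H2) * M.N - M.N * (H1 - H2)) x = ((-2 : ℂ) • M.N) x)
      ?_ ?_ ?_ x
    · intro k α x hx hx'
      rw [LinearMap.sub_apply, Module.End.mul_apply, Module.End.mul_apply, LinearMap.smul_apply,
        hH k α x hx hx']
      by_cases hNx : M.N x = 0
      · rw [hNx, map_zero, map_smul, hNx]; simp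
      have hx0 : x ≠ 0 := by rintro rfl; exact hNx (map_zero _)
      have hNα : M.N x ∈ M.Phi.maxGenEigenspace ((q : ℂ)⁻¹ * α) := by
        rw [Module.End.mem_maxGenEigenspace] at hx' ⊢
        obtain ⟨j, hj⟩ := hx'
        refine ⟨j, ?_⟩
        have hst : ∀ z, (M.Phi - ((q : ℂ)⁻¹ * α) • (1 : Module.End ℂ A)) (M.N z) =
            (q : ℂ)⁻¹ • M.N ((M.Phi - α • (1 : Module.End ℂ A)) z) := by
          intro z
          have h1 := M.N_frob z
          simp only [LinearMap.sub_apply, LinearMap.smul_apply, Module.End.one_apply, map_sub,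
            map_smul, M.Phi_apply, h1]
          rw [smul_sub, smul_smul, smul_smul, inv_mul_cancel₀ hq0, one_smul]
        have hpow : ∀ (i : ℕ) (z : A),
            ((M.Phi - ((q : ℂ)⁻¹ * α) • (1 : Module.End ℂ A)) ^ i) (M.N z) =
            ((q : ℂ)⁻¹) ^ i • M.N (((M.Phi - α • (1 : Module.End ℂ A)) ^ i) z) := by
          intro i
          induction i with
          | zero => intro z; simp
          | succ i ih =>
            intro z
            rw [pow_succ', Module.End.mul_apply, ih, map_smul, hst, smul_smul, ← pow_succ,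
              pow_succ' (M.Phi - α • (1 : Module.End ℂ A)), Module.End.mul_apply]
        rw [hpow, hj, map_zero, smul_zero]
      have hw1 : wt q ((q : ℂ)⁻¹ * α) = wt q α - 2 := by
        apply wt_eq hq
        have := (hwt hx' hx0).twist (by omega : q ≠ 0) (-1)
        rw [zpow_neg_one] at this
        exact this
      rw [hH k _ _ (M.N_mem k x hx) hNα, hw1, map_smul]
      push_cast
      module
    · simp
    · intro a b ha hb
      rw [map_add, map_add, ha, hb]

lemma prim_stable (x : A) (hx : x ∈ X.prim) : M.Phi x ∈ X.prim := by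
  have hproj : ∀ k x, X.proj k (M.Phi x) = M.Phi (X.proj k x) := by
    intro k x
    refine X.hom_induction (P := fun x => X.proj k (M.Phi x) = M.Phi (X.proj k x)) ?_ ?_ ?_ x
    · intro j x hx
      by_cases hj : j = k
      · subst hj
        have h1 : M.Phi x ∈ X.gr j := M.frob_mem j x hx
        rw [X.proj_self hx, X.proj_self h1]
      · have h1 : M.Phi x ∈ X.gr j := M.frob_mem j x hx
        rw [X.proj_ne hj hx, X.proj_ne hj h1, map_zero]
    · simp
    · intro x y hx hy
      simp only [map_add, hx, hy]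
  intro k
  refine ⟨fun hk => ?_, fun hk => ?_⟩
  · by_cases hq0 : (q : ℂ) = 0
    · have h1 : X.eta = 0 := by
        have h2 := M.frob_eta
        rw [hq0, zero_smul] at h2
        exact (map_eq_zero_iff M.frob M.frob.injective).1 h2
      rw [h1, zero_pow (Nat.succ_ne_zero _), zero_mul]
    · have h1 : M.frob (X.eta ^ (n - k + 1) * X.proj k x) =
          (q : ℂ) ^ (n - k + 1) • (X.eta ^ (n - k + 1) * M.frob (X.proj k x)) := by
        rw [map_mul, map_pow, M.frob_eta, smul_pow, smul_mul_assoc]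
      rw [(hx k).1 hk, map_zero] at h1
      rw [hproj, M.Phi_apply]
      rcases smul_eq_zero.1 h1.symm with h2 | h2
      · exact absurd h2 (pow_ne_zero _ hq0)
      · exact h2
  · rw [hproj, (hx k).2 hk, map_zero]

/-- The semisimple part of Frobenius and its inverse. -/
theorem exists_ss : ∃ σ τ : Module.End ℂ A, (∀ α, ∀ x ∈ M.Phi.maxGenEigenspace α, σ x = α • x) ∧
    (∀ α, ∀ x ∈ M.Phi.maxGenEigenspace α, τ x = α⁻¹ • x) := by
  have hfin : Module.Finite ℂ A := X.finite
  obtain ⟨σ, hσ⟩ := exists_gen_op M.Phi (fun α => α)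
  obtain ⟨τ, hτ⟩ := exists_gen_op M.Phi (fun α => α⁻¹)
  exact ⟨σ, τ, hσ, hτ⟩

section SS

variable {M} {σ τ : Module.End ℂ A} (hσ : ∀ α, ∀ x ∈ M.Phi.maxGenEigenspace α, σ x = α • x)
  (hτ : ∀ α, ∀ x ∈ M.Phi.maxGenEigenspace α, τ x = α⁻¹ • x)

include hq hσ hτ in
lemma ss_inv (x : A) : σ (τ x) = x ∧ τ (σ x) = x := by
  have hfin : Module.Finite ℂ A := X.finite
  refine M.ind (P := fun x => σ (τ x) = x ∧ τ (σ x) = x) ?_ ?_ ?_ x
  · intro k α x _ hx
    by_cases hx0 : x = 0
    · rw [hx0]; simp
    have h1 := weil_ne_zero hq (weight_of_mem hq M.weights' hx hx0)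
    rw [hσ α x hx, hτ α x hx, map_smul, map_smul, hσ α x hx, hτ α x hx, smul_smul, smul_smul,
      inv_mul_cancel₀ h1, mul_inv_cancel₀ h1, one_smul]
    exact ⟨rfl, rfl⟩
  · simp
  · intro x y hx hy
    rw [map_add, map_add, map_add, map_add, hx.1, hx.2, hy.1, hy.2]
    exact ⟨rfl, rfl⟩

include hσ in
lemma ss_deg (k : ℕ) (x : A) (hx : x ∈ X.gr k) : σ x ∈ X.gr k := by
  have hfin : Module.Finite ℂ A := X.finite
  exact gen_op_stable (c := fun α => α) hσ (fun x hx => M.frob_mem k x hx) x hx

include hσ in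
lemma ss_mul (x y : A) : σ (x * y) = σ x * σ y := by
  revert y
  refine M.ind (P := fun x => ∀ y, σ (x * y) = σ x * σ y) ?_ ?_ ?_ x
  · intro k α x _ hx' y
    refine M.ind (P := fun y => σ (x * y) = σ x * σ y) ?_ ?_ ?_ y
    · intro j β y _ hy'
      rw [hσ _ _ (gen_mul _ hx' hy'), hσ α x hx', hσ β y hy', smul_mul_assoc, mul_smul_comm,
        smul_smul]
    · simp
    · intro y z hy hz
      rw [mul_add, map_add, hy, hz, map_add, mul_add]
  · intro y; simp
  · intro x z hx hz y
    rw [add_mul, map_add, hx, hz, map_add, add_mul]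

include hσ in
lemma ss_op {a : ℕ} {Z : MultilinearMap ℂ (fun _ : Fin a => A) A} {j : ℤ}
    (hZ : M.IsHodgeTate j Z) (x : Fin a → A) :
    σ (Z x) = (q : ℂ) ^ j • Z (fun i => σ (x i)) := by
  have h1 : σ.compMultilinearMap Z = ((q : ℂ) ^ j) • Z.compLinearMap (fun _ => σ) := by
    apply multi_ext (Q := fun x => ∃ (k : ℕ) (α : ℂ), x ∈ X.gr k ∧ x ∈ M.Phi.maxGenEigenspace α)
      (fun P hP h0 ha => M.ind (fun k α x hx hx' => hP x ⟨k, α, hx, hx'⟩) h0 ha)
    intro x hx
    choose k α hk hα using hx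
    have hgenZ : Z x ∈ M.Phi.maxGenEigenspace ((q : ℂ) ^ j * ∏ i, α i) :=
      gen_multi M.Phi _ (fun x => hZ.frob x) α hα
    rw [LinearMap.compMultilinearMap_apply, MultilinearMap.smul_apply,
      MultilinearMap.compLinearMap_apply, hσ _ _ hgenZ]
    have h2 : (fun i => σ (x i)) = fun i => α i • x i := funext fun i => hσ _ _ (hα i)
    rw [h2, Z.map_smul_univ, smul_smul]
  have h2 := congrArg (fun F : MultilinearMap ℂ (fun _ : Fin a => A) A => F x) h1
  simpa using h2

include hσ hq in
lemma ss_N (x : A) : σ (M.N x) = (q : ℂ)⁻¹ • M.N (σ x) := by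
  have hfin : Module.Finite ℂ A := X.finite
  have hq0 : (q : ℂ) ≠ 0 := Nat.cast_ne_zero.2 (by omega)
  refine M.ind (P := fun x => σ (M.N x) = (q : ℂ)⁻¹ • M.N (σ x)) ?_ ?_ ?_ x
  · intro k α x _ hx'
    have hNα : M.N x ∈ M.Phi.maxGenEigenspace ((q : ℂ)⁻¹ * α) := by
      rw [Module.End.mem_maxGenEigenspace] at hx' ⊢
      obtain ⟨j, hj⟩ := hx'
      refine ⟨j, ?_⟩
      have hst : ∀ z, (M.Phi - ((q : ℂ)⁻¹ * α) • (1 : Module.End ℂ A)) (M.N z) =
          (q : ℂ)⁻¹ • M.N ((M.Phi - α • (1 : Module.End ℂ A)) z) := by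
        intro z
        have h1 := M.N_frob z
        simp only [LinearMap.sub_apply, LinearMap.smul_apply, Module.End.one_apply, map_sub,
          map_smul, M.Phi_apply, h1]
        rw [smul_sub, smul_smul, smul_smul, inv_mul_cancel₀ hq0, one_smul]
      have hpow : ∀ (i : ℕ) (z : A),
          ((M.Phi - ((q : ℂ)⁻¹ * α) • (1 : Module.End ℂ A)) ^ i) (M.N z) =
          ((q : ℂ)⁻¹) ^ i • M.N (((M.Phi - α • (1 : Module.End ℂ A)) ^ i) z) := by
        intro i
        induction i with
        | zero => intro z; simp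
        | succ i ih =>
          intro z
          rw [pow_succ', Module.End.mul_apply, ih, map_smul, hst, smul_smul, ← pow_succ,
            pow_succ' (M.Phi - α • (1 : Module.End ℂ A)), Module.End.mul_apply]
      rw [hpow, hj, map_zero, smul_zero]
    rw [hσ _ _ hNα, hσ α x hx', map_smul, smul_smul]
  · simp
  · intro x y hx hy
    simp only [map_add, hx, hy, smul_add]

include hσ in
lemma ss_eta : σ X.eta = (q : ℂ) • X.eta := hσ _ _ (M.eig_mem M.frob_eta)

include hq hσ hτ in
/-- Conjugation by the semisimple part of Frobenius preserves the Lie algebra. -/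
lemma ss_good {D : Module.End ℂ A} (h : X.Good M.ops D) : X.Good M.ops (σ * D * τ) := by
  have hfin : Module.Finite ℂ A := X.finite
  have hq0 : (q : ℂ) ≠ 0 := Nat.cast_ne_zero.2 (by omega)
  have hστ : ∀ x, σ (τ x) = x := fun x => (ss_inv hq hσ hτ x).1
  have hτσ : ∀ x, τ (σ x) = x := fun x => (ss_inv hq hσ hτ x).2
  have hτmul : ∀ x y, τ (x * y) = τ x * τ y := by
    intro x y
    rw [← hτσ (τ x * τ y), ss_mul hσ, hστ, hστ]
  refine ⟨?_, ?_, ?_, ?_⟩
  · intro x y
    simp only [Module.End.mul_apply]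
    rw [hτmul, h.der, map_add, ss_mul hσ, ss_mul hσ, hστ, hστ]
  · intro k x hx
    exact ss_deg hσ k _ (h.deg k _ (gen_op_stable (c := fun α => α⁻¹) hτ
      (fun x hx => M.frob_mem k x hx) x hx))
  · have h1 : τ X.eta = (q : ℂ)⁻¹ • X.eta := hτ _ _ (M.eig_mem M.frob_eta)
    simp only [Module.End.mul_apply]
    rw [h1, map_smul, h.eta, smul_zero, map_zero]
  · rintro a Z ⟨j, hZ⟩
    exact Leibniz.transport_smul σ τ hστ hτσ (zpow_ne_zero j hq0) (ss_op hσ hZ)
      (h.kill a Z ⟨j, hZ⟩) (fun x => rfl)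

include hσ in
/-- The eigenspaces of the semisimple part are the generalized eigenspaces. -/
lemma ss_eig {γ : ℂ} {y : A} (hy : σ y = γ • y) : y ∈ M.Phi.maxGenEigenspace γ := by
  have hfin : Module.Finite ℂ A := X.finite
  have hcomm : ∀ x, σ (M.Phi x) = M.Phi (σ x) := gen_op_comm (c := fun α => α) hσ rfl
  have h1 := Submodule.inf_iSup_genEigenspace (p := σ.eigenspace γ) (f := M.Phi) (by
    intro z hz
    rw [mem_eigenspace_iff] at hz ⊢
    rw [hcomm, hz, map_smul]) ⊤
  have h2 : ⨆ α : ℂ, M.Phi.genEigenspace α ⊤ = ⊤ := Module.End.iSup_maxGenEigenspace_eq_top M.Phi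
  rw [h2, inf_top_eq] at h1
  have hy' : y ∈ σ.eigenspace γ := mem_eigenspace_iff.2 hy
  rw [h1] at hy'
  refine Submodule.iSup_induction _ (motive := fun y => y ∈ M.Phi.maxGenEigenspace γ) hy' ?_
    (zero_mem _) (fun _ _ => add_mem)
  intro β z hz
  by_cases hβ : β = γ
  · subst hβ; exact hz.2
  · have h3 : σ z = γ • z := mem_eigenspace_iff.1 hz.1
    rw [hσ β z hz.2] at h3
    have h4 : (β - γ) • z = 0 := by rw [sub_smul, h3, sub_self]
    rcases smul_eq_zero.1 h4 with h5 | h5
    · exact absurd (sub_eq_zero.1 h5) hβ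
    · rw [h5]; exact zero_mem _

include hq hσ in
/-- An operator of degree zero which is an eigenvector for conjugation by the semisimple part of
Frobenius, with an eigenvalue of weight `w`, has weight `w`. -/
lemma adj_weight {H : Module.End ℂ A}
    (hH : ∀ k α, ∀ x ∈ X.gr k, x ∈ M.Phi.maxGenEigenspace α → H x = ((wt q α : ℂ) - k) • x)
    {D : Module.End ℂ A} (hD : ∀ k x, x ∈ X.gr k → D x ∈ X.gr k) {μ : ℂ} {w : ℤ}
    (hμ : IsWeilNumber q w μ) (h : ∀ x, σ (D x) = μ • D (σ x)) : adj H D = (w : ℂ) • D := by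
  have hfin : Module.Finite ℂ A := X.finite
  ext x
  rw [adj_apply]
  refine M.ind (P := fun x => (H * D - D * H) x = ((w : ℂ) • D) x) ?_ ?_ ?_ x
  · intro k α x hx hx'
    by_cases hx0 : x = 0
    · rw [hx0]; simp
    have h1 : D x ∈ M.Phi.maxGenEigenspace (μ * α) := by
      apply ss_eig hσ
      rw [h, hσ α x hx', map_smul, smul_smul]
    rw [LinearMap.sub_apply, Module.End.mul_apply, Module.End.mul_apply, LinearMap.smul_apply,
      hH k α x hx hx', hH k _ _ (hD k x hx) h1,
      wt_eq hq (weil_mul hq hμ (weight_of_mem hq M.weights' hx' hx0)), map_smul]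
    push_cast
    module
  · simp
  · intro a b ha hb
    rw [map_add, map_add, ha, hb]

end SS

end Monodromy

end Pool.Agent.R941.WD
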